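import Pool.Agent.Helper10.CT.FinalLine
import Pool.Agent.Helper8.CO.EngC

/-! # CT: the engine of case 2 in terms of polynomials -/

set_option autoImplicit false

open MvPolynomial

namespace Pool.Agent.Helper10.CT

open scoped BigOperators
open Pool.Agent.Helper8.LG Pool.Agent.Helper91.CO
open Pool.Agent.Helper6.CO (qm)
open Pool.Agent.Helper8.CO (card_IxC adjoinC)

/-- the rational points of the intersection of all the hypersurfaces -/
theorem engA_T {k₀ L : Type*} [Field k₀] [Field L] [CharZero L] [Algebra k₀ L]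
    (hfg : (⊤ : IntermediateField k₀ L).FG) {N r n : ℕ} (d q : Fin r → ℕ)
    (b : Fin r → Fin n → ℕ) (hq : ∀ i, 0 < q i) (hbq : ∀ i j, b i j + q i ≤ d i)
    (F : Fin r → MvPolynomial (Fin (N + 1)) L)
    (F₀ : Fin r → MvPolynomial (Fin (N + 1) ⊕ Fin n) k₀)
    (hF₀ : ∀ i, IsWeightedHomogeneous (wts N fun j => d i - b i j) (F₀ i) (d i))
    (H : Fin r → Fin n → MvPolynomial (Fin (N + 1)) L)
    (hH : ∀ i j, (H i j).IsHomogeneous (d i - b i j))
    (hFA : ∀ i, F i = aeval (Sum.elim X (H i)) (F₀ i))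
    (w c : ℕ)
    (hcoef : ((∑ i, ∑ j, (N + (d i - b i j)).choose N : ℕ) : Cardinal) ≤
      Algebra.trdeg k₀ (IntermediateField.adjoin k₀ {z | ∃ i j J, z = coeff J (H i j)}) + c)
    (T : Finset (Fin r)) (hT : ∀ i ∈ T, ∀ y : Fin (N + 1) → AlgebraicClosure L,
      (∀ j, aeval y (mder (F₀ i) (H i) j) = 0) → y = 0)
    (h1 : 2 * w + 1 + c ≤ ∑ i, (qm T d q i + 1)) (h2 : w + 2 ≤ ∑ i, qn T d q i)
    (h3 : 2 * N + c ≤ ∑ i, (qm T d q i + 1) + 1) (i₀ : Fin (N + 1)) :
    {x : Fin (N + 1) → L | x i₀ = 1 ∧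
      Algebra.trdeg k₀ (IntermediateField.adjoin k₀ (Set.range x)) ≤ w ∧
      (∀ i, ∃ j, eval x (mder (F₀ i) (H i) j) ≠ 0) ∧ ∀ i, eval x (F i) = 0}.Finite := by
  classical
  have hb : ∀ i j, b i j ≤ d i := fun i j => (Nat.le_add_right _ _).trans (hbq i j)
  have hdF : ∀ i, (F i).IsHomogeneous (d i) := fun i => by
    rw [hFA i]
    exact hom_aeval _ (F₀ i) (hF₀ i) (H i) (hH i)
  have hmd : ∀ i j, (mder (F₀ i) (H i) j).IsHomogeneous (b i j) := fun i j =>
    hom_mder _ (F₀ i) (hF₀ i) (H i) (hH i) j (Nat.add_sub_cancel' (hb i j)).symm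
  obtain ⟨Q, hQ⟩ := Pool.Agent.Helper8.CO.fam_poly d b hb F₀ H hH
  have hN := exists_nulP b (fun i j => mder (F₀ i) (H i) j) hmd T hT
  have hform : ∀ (x : Fin (N + 1) → L) i,
      form (cf (d i) (aeval (Sum.elim X (H i)) (F₀ i))) x = eval x (F i) := fun x i => by
    rw [← hFA i]
    exact form_cf _ (hdF i) x
  have hformP : ∀ (x : Fin (N + 1) → L) i j,
      form (cf (b i j) (mder (F₀ i) (H i) j)) x = eval x (mder (F₀ i) (H i) j) := fun x i j =>
    form_cf _ (hmd i j) x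
  have hfin := final_line hfg (fun s : Fin r × Fin n => s.1) d q (fun s => b s.1 s.2)
    (fun s => d s.1 - b s.1 s.2) (fun t => by
      have := hbq t.1 t.2
      have := hq t.1
      omega) (fun t => by
      have := hbq t.1 t.2
      omega)
    (fun i => cf (d i) (aeval (Sum.elim X (H i)) (F₀ i)))
    (fun s => cf (b s.1 s.2) (mder (F₀ s.1) (H s.1) s.2))
    (fun s => cf (d s.1 - b s.1 s.2) (H s.1 s.2)) ⟨Q, hQ⟩ w c (by
      rw [card_IxC, Fintype.sum_prod_type]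
      refine hcoef.trans (le_of_eq ?_)
      congr 1
      rw [adjoinC k₀ (fun i j => d i - b i j) H hH]) T hN i₀ h1 h2 (by
      rw [Fintype.card_fin]
      omega)
  refine hfin.subset ?_
  rintro x ⟨h4, h5, h6, h7⟩
  refine ⟨h4, h5, fun i => ?_, fun i => ?_⟩
  · obtain ⟨j, hj⟩ := h6 i
    refine ⟨(i, j), rfl, ?_⟩
    rw [hformP]
    exact hj
  · rw [hform]
    exact h7 i

end Pool.Agent.Helper10.CT
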