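import Pool.Agent.Helper8.CO.Cert
import Pool.Agent.Helper10.LB.PolyD
import Pool.Agent.Helper49.LG.GenLine

/-! # CT: linear algebra of the restrictions to a line -/

set_option autoImplicit false

namespace Pool.Agent.Helper10.CT

open scoped BigOperators
open Pool.Agent.Helper8.LG
open Pool.Agent.Helper6.CO (Fam Mov Nul qm)
open Pool.Agent.Helper8.CO (NulP)
open Pool.Agent.Helper10.LB (lf)

section aux

variable {E : Type*} [Field E] {σ ι κ : Type*} [Fintype σ] [DecidableEq σ]

/-- the restriction to a line as a linear map -/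
noncomputable def lfL (u v : σ → E) (q : ℕ) : (Sym σ q → E) →ₗ[E] Polynomial E where
  toFun a := lf a u v
  map_add' a b := by
    unfold lf form
    rw [← Finset.sum_add_distrib]
    refine Finset.sum_congr rfl fun J _ => ?_
    dsimp only
    rw [Pi.add_apply, Polynomial.C_add, add_mul]
  map_smul' c a := by
    unfold lf form
    rw [RingHom.id_apply, Finset.smul_sum]
    refine Finset.sum_congr rfl fun J _ => ?_
    dsimp only
    rw [Pi.smul_apply, smul_eq_mul, Polynomial.C_mul, mul_assoc, Polynomial.smul_eq_C_mul]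

theorem lfL_apply (u v : σ → E) (q : ℕ) (a : Sym σ q → E) : lfL u v q a = lf a u v := rfl

/-- every polynomial of degree at most `q` is the restriction of a form of degree `q` -/
theorem lf_surj [CharZero E] (u v : σ → E) (β₁ β₂ : σ) (hdet : u β₁ * v β₂ - u β₂ * v β₁ ≠ 0)
    (q : ℕ) (g : Polynomial E) (hg : g ∈ Polynomial.degreeLT E (q + 1)) :
    ∃ e : Sym σ q → E, lf e u v = g := by
  classical
  set Bm : (Fin (q + 1) → E) →ₗ[E] (Sym σ q → E) :=
    { toFun := fun f J => ∑ r, if Helper49.LG.ab β₁ β₂ q r = J then f r else 0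
      map_add' := fun f f' => by
        funext J
        rw [Pi.add_apply, ← Finset.sum_add_distrib]
        refine Finset.sum_congr rfl fun r _ => ?_
        split_ifs
        · rfl
        · rw [add_zero]
      map_smul' := fun c f => by
        funext J
        rw [RingHom.id_apply, Pi.smul_apply, Finset.smul_sum]
        refine Finset.sum_congr rfl fun r _ => ?_
        split_ifs
        · rfl
        · rw [smul_zero] } with hBm
  have hmem : ∀ f, lfL u v q (Bm f) ∈ Polynomial.degreeLT E (q + 1) := by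
    intro f
    rw [Polynomial.mem_degreeLT, lfL_apply]
    refine (Polynomial.degree_le_of_natDegree_le (LB.lf_natDegree_le _ _ _)).trans_lt ?_
    exact_mod_cast Nat.lt_succ_self q
  set T : (Fin (q + 1) → E) →ₗ[E] Polynomial.degreeLT E (q + 1) :=
    ((lfL u v q).comp Bm).codRestrict _ hmem with hT
  have hinj : Function.Injective T := by
    rw [← LinearMap.ker_eq_bot, LinearMap.ker_eq_bot']
    intro f hf
    have h1 : lf (Bm f) u v = 0 := congrArg Subtype.val hf
    funext r
    refine Helper49.LG.zero_of_nat q f (u β₁) (u β₂) (v β₁) (v β₂) hdet (fun n => ?_) r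
    have h2 := congrArg (Polynomial.eval (n : E)) h1
    rw [LB.lf_eval, Polynomial.eval_zero] at h2
    rw [← h2]
    unfold form
    have h3 : ∀ J : Sym σ q, Bm f J * mon (fun l => u l + (n : E) * v l) J =
        ∑ r, if Helper49.LG.ab β₁ β₂ q r = J then
          f r * mon (fun l => u l + (n : E) * v l) J else 0 := by
      intro J
      show (∑ r, if Helper49.LG.ab β₁ β₂ q r = J then f r else 0) * _ = _
      rw [Finset.sum_mul]
      refine Finset.sum_congr rfl fun r _ => ?_
      rw [ite_mul, zero_mul]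
    rw [Finset.sum_congr rfl fun J _ => h3 J, Finset.sum_comm]
    refine Finset.sum_congr rfl fun r _ => ?_
    rw [Finset.sum_ite_eq, if_pos (Finset.mem_univ _), Helper49.LG.mon_ab]
  have hfr : Module.finrank E (Fin (q + 1) → E) =
      Module.finrank E (Polynomial.degreeLT E (q + 1)) :=
    (LinearEquiv.finrank_eq (Polynomial.degreeLTEquiv E (q + 1))).symm
  have : Module.Finite E (Polynomial.degreeLT E (q + 1)) :=
    Module.Finite.equiv (Polynomial.degreeLTEquiv E (q + 1)).symm
  have hsurj : Function.Surjective T :=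
    (LinearMap.injective_iff_surjective_of_finrank_eq_finrank hfr).1 hinj
  obtain ⟨f, hf⟩ := hsurj ⟨g, hg⟩
  exact ⟨Bm f, congrArg Subtype.val hf⟩

/-- a linear section of the restriction to a line -/
theorem exists_section [CharZero E] (u v : σ → E) (β₁ β₂ : σ)
    (hdet : u β₁ * v β₂ - u β₂ * v β₁ ≠ 0) (q : ℕ) :
    ∃ S : Polynomial E →ₗ[E] (Sym σ q → E),
      ∀ g ∈ Polynomial.degreeLT E (q + 1), lf (S g) u v = g := by
  classical
  have h1 : ∀ j : ℕ, ∃ e : Sym σ q → E, j < q + 1 → lf e u v = Polynomial.X ^ j := by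
    intro j
    by_cases hj : j < q + 1
    · obtain ⟨e, he⟩ := lf_surj u v β₁ β₂ hdet q (Polynomial.X ^ j) (by
        rw [Polynomial.mem_degreeLT, Polynomial.degree_X_pow]
        exact_mod_cast hj)
      exact ⟨e, fun _ => he⟩
    · exact ⟨0, fun h => absurd h hj⟩
  choose e he using h1
  refine ⟨∑ j ∈ Finset.range (q + 1), (Polynomial.lcoeff E j).smulRight (e j), fun g hg => ?_⟩
  rw [← lfL_apply, LinearMap.sum_apply, map_sum]
  have h2 : ∀ j ∈ Finset.range (q + 1), lfL u v q ((Polynomial.lcoeff E j).smulRight (e j) g) =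
      Polynomial.C (g.coeff j) * Polynomial.X ^ j := by
    intro j hj
    rw [LinearMap.smulRight_apply, map_smul, lfL_apply, he j (Finset.mem_range.1 hj),
      Polynomial.lcoeff_apply, Polynomial.smul_eq_C_mul]
  rw [Finset.sum_congr rfl h2]
  by_cases hg0 : g = 0
  · rw [hg0]
    simp
  · refine (Polynomial.as_sum_range_C_mul_X_pow' _ ?_).symm
    rw [Polynomial.mem_degreeLT] at hg
    exact (Polynomial.natDegree_lt_iff_degree_lt hg0).2 hg

end aux

/-- a combination of polynomials without common factor which is coprime to a given one -/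
theorem exists_coprime {E : Type*} [Field E] [Infinite E] {κ : Type*} [Fintype κ]
    (m : κ → Polynomial E) (M : Polynomial E) (hM : M ≠ 0)
    (h : ∀ P : Polynomial E, Prime P → P ∣ M → ∃ t, ¬ P ∣ m t) :
    ∃ s : κ → E, IsCoprime M (∑ t, Polynomial.C (s t) * m t) := by
  classical
  set L : (κ → E) →ₗ[E] Polynomial E :=
    { toFun := fun s => ∑ t, Polynomial.C (s t) * m t
      map_add' := fun s s' => by
        rw [← Finset.sum_add_distrib]
        refine Finset.sum_congr rfl fun t _ => ?_
        rw [Pi.add_apply, Polynomial.C_add, add_mul]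
      map_smul' := fun c s => by
        rw [RingHom.id_apply, Finset.smul_sum]
        refine Finset.sum_congr rfl fun t _ => ?_
        rw [Pi.smul_apply, smul_eq_mul, Polynomial.C_mul, mul_assoc,
          Polynomial.smul_eq_C_mul] } with hL
  have hLs : ∀ t, L (Pi.single t 1) = m t := by
    intro t
    show ∑ t', Polynomial.C ((Pi.single t 1 : κ → E) t') * m t' = m t
    rw [Finset.sum_eq_single t]
    · rw [Pi.single_eq_same, Polynomial.C_1, one_mul]
    · intro t' _ ht'
      rw [Pi.single_eq_of_ne ht', Polynomial.C_0, zero_mul]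
    · intro h
      exact absurd (Finset.mem_univ _) h
  set W : Polynomial E → Subspace E (κ → E) := fun P =>
    ((Ideal.span {P}).restrictScalars E).comap L with hW
  have hWm : ∀ P s, s ∈ W P ↔ P ∣ L s := by
    intro P s
    rw [hW]
    simp only
    rw [Submodule.mem_comap, Submodule.restrictScalars_mem, Ideal.mem_span_singleton]
  set F : Finset (Polynomial E) := (UniqueFactorizationMonoid.normalizedFactors M).toFinset with hF
  have hne := Subspace.biUnion_ne_univ_of_top_notMem (k := E) (s := F.image W) (by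
    rw [Finset.mem_image]
    rintro ⟨P, hP, hPtop⟩
    rw [hF, Multiset.mem_toFinset] at hP
    obtain ⟨t, ht⟩ := h P (UniqueFactorizationMonoid.prime_of_normalized_factor P hP)
      (UniqueFactorizationMonoid.dvd_of_mem_normalizedFactors hP)
    apply ht
    rw [← hLs t, ← hWm, hPtop]
    exact Submodule.mem_top)
  obtain ⟨s, hs⟩ := (Set.ne_univ_iff_exists_notMem _).1 hne
  refine ⟨s, isCoprime_of_irreducible_dvd (fun h0 => hM h0.1) fun P hP hPM hPL => ?_⟩
  obtain ⟨Q, hQ, hPQ⟩ := UniqueFactorizationMonoid.exists_mem_normalizedFactors_of_dvd hM hP hPM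
  apply hs
  rw [Set.mem_iUnion₂]
  refine ⟨W Q, Finset.mem_image.2 ⟨Q, Multiset.mem_toFinset.2 hQ, rfl⟩, ?_⟩
  exact (hWm Q s).2 (hPQ.symm.dvd.trans hPL)

/-- on a line the `m_t` have no common zero: the polynomial certificate -/
theorem nul_line {E : Type*} [Field E] {σ ι κ : Type*} [Fintype σ] [DecidableEq σ]
    [DecidableEq ι] [Fintype κ] (bl : κ → ι)
    {b : κ → ℕ} (ap : (t : κ) → Sym σ (b t) → E) (Y : Finset ι) (hN : NulP bl ap Y) (u v : σ → E)
    (β₁ β₂ : σ) (hdet : u β₁ * v β₂ - u β₂ * v β₁ ≠ 0) (i : ι) (hi : i ∈ Y)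
    (P : Polynomial E) (hP : Prime P) :
    ∃ t, ¬ P ∣ (if bl t = i then lf (ap t) u v else 0) := by
  classical
  by_contra hcon
  push Not at hcon
  have key : ∀ l, P ∣ Polynomial.C (u l) + Polynomial.X * Polynomial.C (v l) := by
    intro l
    obtain ⟨R, B, hB⟩ := hN i hi l
    have h1 := congrArg (MvPolynomial.eval₂Hom (Polynomial.C : E →+* Polynomial E)
      (fun l => Polynomial.C (u l) + Polynomial.X * Polynomial.C (v l))) hB
    rw [map_pow, MvPolynomial.coe_eval₂Hom, MvPolynomial.eval₂_X, ← MvPolynomial.coe_eval₂Hom,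
      map_sum] at h1
    refine hP.dvd_of_dvd_pow (n := R) ?_
    rw [h1]
    refine Finset.dvd_sum fun t _ => ?_
    have h2 := hcon t
    by_cases ht : bl t = i
    · rw [if_pos ht] at h2 ⊢
      rw [map_mul]
      refine Dvd.dvd.mul_left ?_ _
      have h3 : MvPolynomial.eval₂Hom (Polynomial.C : E →+* Polynomial E)
          (fun l => Polynomial.C (u l) + Polynomial.X * Polynomial.C (v l))
          (form (fun J => MvPolynomial.C (ap t J)) MvPolynomial.X) = lf (ap t) u v := by
        rw [LB.pd_map_form]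
        unfold lf
        congr 1
        · funext J
          exact MvPolynomial.eval₂_C _ _ _
        · funext l
          exact MvPolynomial.eval₂_X _ _ _
      rw [h3]
      exact h2
    · rw [if_neg ht, map_zero]
      exact dvd_zero _
  have h1 : P ∣ Polynomial.C (u β₁ * v β₂ - u β₂ * v β₁) := by
    have h2 := dvd_sub ((key β₁).mul_left (Polynomial.C (v β₂)))
      ((key β₂).mul_left (Polynomial.C (v β₁)))
    have h3 : Polynomial.C (v β₂) * (Polynomial.C (u β₁) + Polynomial.X * Polynomial.C (v β₁)) -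
        Polynomial.C (v β₁) * (Polynomial.C (u β₂) + Polynomial.X * Polynomial.C (v β₂)) =
        Polynomial.C (u β₁ * v β₂ - u β₂ * v β₁) := by
      rw [Polynomial.C_sub, Polynomial.C_mul, Polynomial.C_mul]
      ring
    rwa [h3] at h2
  exact hP.not_unit (isUnit_of_dvd_unit h1 (Polynomial.isUnit_C.2 (isUnit_iff_ne_zero.2 hdet)))

/-- one of the `m_t` does not vanish at the point at infinity of the line -/
theorem nul_top {E : Type*} [Field E] {σ ι κ : Type*} [Fintype σ] [DecidableEq σ]
    [DecidableEq ι] [Fintype κ] (bl : κ → ι)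
    {b : κ → ℕ} (ap : (t : κ) → Sym σ (b t) → E) (Y : Finset ι) (hN : NulP bl ap Y) (u v : σ → E)
    (β₁ β₂ : σ) (hdet : u β₁ * v β₂ - u β₂ * v β₁ ≠ 0) (i : ι) (hi : i ∈ Y) :
    ∃ t, bl t = i ∧ (lf (ap t) u v).coeff (b t) ≠ 0 := by
  classical
  obtain ⟨l, hl⟩ : ∃ l, v l ≠ 0 := by
    by_contra hcon
    push Not at hcon
    apply hdet
    rw [hcon, hcon]
    ring
  obtain ⟨R, B, hB⟩ := hN i hi l
  have h1 := congrArg (MvPolynomial.eval v) hB
  rw [map_pow, MvPolynomial.eval_X, map_sum] at h1
  have h2 : ∑ t, MvPolynomial.eval v (if bl t = i then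
      B t * form (fun J => MvPolynomial.C (ap t J)) MvPolynomial.X else 0) ≠ 0 := by
    rw [← h1]
    exact pow_ne_zero _ hl
  obtain ⟨t, -, ht⟩ := Finset.exists_ne_zero_of_sum_ne_zero h2
  have hbl : bl t = i := by
    by_contra hne
    apply ht
    rw [if_neg hne, map_zero]
  refine ⟨t, hbl, ?_⟩
  rw [if_pos hbl, map_mul] at ht
  rw [LB.lf_coeff_top]
  have h3 : MvPolynomial.eval v (form (fun J => MvPolynomial.C (ap t J)) MvPolynomial.X) =
      form (ap t) v := by
    rw [LB.pd_map_form]
    simp only [MvPolynomial.eval_C, MvPolynomial.eval_X]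
  rw [h3] at ht
  exact right_ne_zero_of_mul ht

/-- the space of restrictions `∑ m_t f_t`, `bl t = i`, has dimension at least `q'_i + 1` -/
theorem line_data {E : Type*} [Field E] [CharZero E] {σ ι κ : Type*} [Fintype σ] [DecidableEq σ]
    [DecidableEq ι] [Fintype κ] [DecidableEq κ] (bl : κ → ι) (d q₀ : ι → ℕ)
    (b q : κ → ℕ) (hdeg : ∀ t, d (bl t) = b t + q t) (hq₀ : ∀ t, q₀ (bl t) ≤ q t)
    (ap : (t : κ) → Sym σ (b t) → E) (Y : Finset ι) (hN : NulP bl ap Y) (u v : σ → E)
    (β₁ β₂ : σ) (hdet : u β₁ * v β₂ - u β₂ * v β₁ ≠ 0)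
    (hP : ∀ i, ∃ t, bl t = i ∧ lf (ap t) u v ≠ 0) (i : ι) :
    ∃ (t₁ : κ) (k : ℕ) (s : κ → E), bl t₁ = i ∧ k ≤ q₀ i + 1 ∧
      qm Y d q₀ i + 1 ≤ (q t₁ + 1) + k ∧ ∀ A B : Polynomial E, B ∈ Polynomial.degreeLT E k →
        lf (ap t₁) u v * A +
          (∑ t, Polynomial.C (s t) * if bl t = i then lf (ap t) u v else 0) * B = 0 →
        A = 0 ∧ B = 0 := by
  classical
  by_cases hi : i ∈ Y
  · obtain ⟨t₁, ht₁, htop⟩ := nul_top bl ap Y hN u v β₁ β₂ hdet i hi
    have hM : lf (ap t₁) u v ≠ 0 := by
      intro h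
      apply htop
      rw [h, Polynomial.coeff_zero]
    have hnd : (lf (ap t₁) u v).natDegree = b t₁ :=
      Polynomial.natDegree_eq_of_le_of_coeff_ne_zero (LB.lf_natDegree_le _ _ _) htop
    obtain ⟨s, hs⟩ := exists_coprime (fun t => if bl t = i then lf (ap t) u v else 0)
      (lf (ap t₁) u v) hM fun P hPp _ => nul_line bl ap Y hN u v β₁ β₂ hdet i hi P hPp
    refine ⟨t₁, min (b t₁) (q₀ i + 1), s, ht₁, min_le_right _ _, ?_, fun A B hB h => ?_⟩
    · unfold qm
      rw [if_pos hi]
      have h1 := hdeg t₁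
      have h2 := hq₀ t₁
      rw [ht₁] at h1 h2
      omega
    · have h1 : lf (ap t₁) u v ∣
          (∑ t, Polynomial.C (s t) * if bl t = i then lf (ap t) u v else 0) * B := by
        refine ⟨-A, ?_⟩
        linear_combination h
      have h2 : lf (ap t₁) u v ∣ B := hs.dvd_of_dvd_mul_left h1
      have hB0 : B = 0 := by
        by_contra hB0
        have h3 := Polynomial.natDegree_le_of_dvd h2 hB0
        rw [Polynomial.mem_degreeLT] at hB
        have h4 := (Polynomial.natDegree_lt_iff_degree_lt hB0).2 hB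
        rw [hnd] at h3
        omega
      refine ⟨?_, hB0⟩
      rw [hB0, mul_zero, add_zero] at h
      exact (mul_eq_zero.1 h).resolve_left hM
  · obtain ⟨t₁, ht₁, hM⟩ := hP i
    refine ⟨t₁, 0, 0, ht₁, Nat.zero_le _, ?_, fun A B hB h => ?_⟩
    · unfold qm
      rw [if_neg hi]
      have h2 := hq₀ t₁
      rw [ht₁] at h2
      omega
    · have hB0 : B = 0 := by
        rw [Polynomial.mem_degreeLT] at hB
        by_contra hB0
        rw [Polynomial.degree_eq_natDegree hB0] at hB
        have : (0 : ℕ) ≤ B.natDegree := Nat.zero_le _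
        exact absurd hB (by exact_mod_cast not_lt.2 (Nat.zero_le _))
      refine ⟨?_, hB0⟩
      rw [hB0, mul_zero, add_zero] at h
      exact (mul_eq_zero.1 h).resolve_left hM

theorem finrank_degLT {E : Type*} [Field E] (n : ℕ) :
    Module.finrank E (Polynomial.degreeLT E n) = n := by
  rw [LinearEquiv.finrank_eq (Polynomial.degreeLTEquiv E n)]
  simp

/-- The restrictions `∑_(bl t = i) m_t f_t` to a line, `f_t` a form of degree `q t`: fewer than
`∑ (q'_i + 1)` linear conditions on the `f_t` do not make all of them vanish. -/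
theorem line_core {E : Type*} [Field E] [CharZero E] {σ ι κ : Type*} [Fintype σ] [DecidableEq σ]
    [Fintype ι] [DecidableEq ι] [Fintype κ] [DecidableEq κ] (bl : κ → ι) (d q₀ : ι → ℕ)
    (b q : κ → ℕ) (hdeg : ∀ t, d (bl t) = b t + q t) (hq₀ : ∀ t, q₀ (bl t) ≤ q t)
    (ap : (t : κ) → Sym σ (b t) → E) (Y : Finset ι) (hN : NulP bl ap Y) (u v : σ → E)
    (β₁ β₂ : σ) (hdet : u β₁ * v β₂ - u β₂ * v β₁ ≠ 0)
    (hP : ∀ i, ∃ t, bl t = i ∧ lf (ap t) u v ≠ 0) {V : Type*} [AddCommGroup V] [Module E V]
    [FiniteDimensional E V] (c : (Ix σ q → E) →ₗ[E] V)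
    (hc : Module.finrank E V < ∑ i, (qm Y d q₀ i + 1)) :
    ∃ f : Ix σ q → E, c f = 0 ∧ ∃ i, (∑ t, if bl t = i then
      lf (ap t) u v * lf (fun J => f ⟨t, J⟩) u v else 0) ≠ 0 := by
  classical
  choose t₁ k s hbl hk hcount hinj using
    line_data bl d q₀ b q hdeg hq₀ ap Y hN u v β₁ β₂ hdet hP
  choose S hS using exists_section (E := E) u v β₁ β₂ hdet
  have hfin : ∀ n, Module.Finite E (Polynomial.degreeLT E n) := fun n =>
    Module.Finite.equiv (Polynomial.degreeLTEquiv E n).symm
  set φ : ((i : ι) → (Polynomial.degreeLT E (q (t₁ i) + 1) × Polynomial.degreeLT E (k i)))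
      →ₗ[E] (Ix σ q → E) :=
    { toFun := fun w x => (if x.1 = t₁ (bl x.1) then
          S (q x.1) ((w (bl x.1)).1 : Polynomial E) x.2 else 0) +
        s (bl x.1) x.1 * S (q x.1) ((w (bl x.1)).2 : Polynomial E) x.2
      map_add' := fun w w' => by
        funext x
        simp only [Pi.add_apply, Prod.fst_add, Prod.snd_add, Submodule.coe_add, map_add]
        split_ifs
        · ring
        · ring
      map_smul' := fun c w => by
        funext x
        simp only [Pi.smul_apply, Prod.smul_fst, Prod.smul_snd, Submodule.coe_smul, map_smul,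
          smul_eq_mul, RingHom.id_apply]
        split_ifs
        · ring
        · ring } with hφ
  have hker : LinearMap.ker (c.comp φ) ≠ ⊥ := by
    apply LinearMap.ker_ne_bot_of_finrank_lt
    refine lt_of_lt_of_le hc ?_
    rw [Module.finrank_pi_fintype]
    refine Finset.sum_le_sum fun i _ => ?_
    rw [Module.finrank_prod, finrank_degLT, finrank_degLT]
    exact hcount i
  obtain ⟨w, hw, hw0⟩ := (Submodule.ne_bot_iff _).1 hker
  refine ⟨φ w, hw, ?_⟩
  by_contra hcon
  push Not at hcon
  apply hw0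
  funext i
  have hA : ((w i).1 : Polynomial E) ∈ Polynomial.degreeLT E (q (t₁ i) + 1) := (w i).1.2
  have hB : ((w i).2 : Polynomial E) ∈ Polynomial.degreeLT E (k i) := (w i).2.2
  have hlf : ∀ t, bl t = i → lf (fun J => φ w ⟨t, J⟩) u v =
      (if t = t₁ i then ((w i).1 : Polynomial E) else 0) +
        Polynomial.C (s i t) * ((w i).2 : Polynomial E) := by
    intro t ht
    have h1 : (fun J => φ w ⟨t, J⟩) = (if t = t₁ i then
        S (q t) ((w i).1 : Polynomial E) else 0) + s i t • S (q t) ((w i).2 : Polynomial E) := by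
      funext J
      subst ht
      show (if t = t₁ (bl t) then S (q t) ((w (bl t)).1 : Polynomial E) J else 0) +
        s (bl t) t * S (q t) ((w (bl t)).2 : Polynomial E) J = _
      rw [Pi.add_apply, Pi.smul_apply, smul_eq_mul]
      split_ifs <;> rfl
    rw [← lfL_apply, h1, map_add, map_smul]
    congr 1
    · split_ifs with h2
      · rw [lfL_apply]
        refine hS (q t) _ ?_
        rw [h2]
        exact hA
      · exact map_zero _
    · rw [Polynomial.smul_eq_C_mul, lfL_apply]
      congr 1
      refine hS (q t) _ (Polynomial.degreeLT_mono ?_ hB)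
      have h3 := hq₀ t
      have h4 := hk i
      rw [ht] at h3
      omega
  have h5 := hcon i
  have h6 : (∑ t, if bl t = i then lf (ap t) u v * lf (fun J => φ w ⟨t, J⟩) u v else 0) =
      lf (ap (t₁ i)) u v * ((w i).1 : Polynomial E) +
        (∑ t, Polynomial.C (s i t) * if bl t = i then lf (ap t) u v else 0) *
          ((w i).2 : Polynomial E) := by
    have h7 : ∀ t, (if bl t = i then lf (ap t) u v * lf (fun J => φ w ⟨t, J⟩) u v else 0) =
        (if t = t₁ i then lf (ap t) u v * ((w i).1 : Polynomial E) else 0) +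
          Polynomial.C (s i t) * (if bl t = i then lf (ap t) u v else 0) *
            ((w i).2 : Polynomial E) := by
      intro t
      by_cases ht : bl t = i
      · rw [if_pos ht, if_pos ht, hlf t ht]
        split_ifs
        · ring
        · ring
      · rw [if_neg ht, if_neg ht, if_neg]
        · ring
        · intro h8
          apply ht
          rw [h8, hbl]
    rw [Finset.sum_congr rfl fun t _ => h7 t, Finset.sum_add_distrib, Finset.sum_ite_eq',
      if_pos (Finset.mem_univ _), Finset.sum_mul]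
  rw [h6] at h5
  obtain ⟨h8, h9⟩ := hinj i _ _ hB h5
  exact Prod.ext (Subtype.ext h8) (Subtype.ext h9)

end Pool.Agent.Helper10.CT
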