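import Pool.Agent.Helper10.CT.Defs
import Pool.Agent.Helper10.CT.LineCore
import Pool.Agent.Helper10.LV.GenLine
import Pool.Agent.Helper49.LV.GenLine

/-! # CT: lines and moving families -/

set_option autoImplicit false

namespace Pool.Agent.Helper10.CT

open scoped BigOperators
open Pool.Agent.Helper8.LG (Ix Dual form mon)
open Pool.Agent.Helper6.CO (Fam Mov Nul qm)
open Pool.Agent.Helper8.CO (NulP)
open Pool.Agent.Helper10.LB (lf lf_eval)

/-- A combination of the `D_s` which kills few given elements and moves the forms on a line. -/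
theorem exists_killer {E : Type*} [Field E] [CharZero E] {σ ι κ τ : Type*} [Fintype σ]
    [DecidableEq σ] [Fintype ι] [DecidableEq ι] [Fintype κ] [DecidableEq κ] [Fintype τ]
    (bl : κ → ι) (d q₀ : ι → ℕ) (b q : κ → ℕ) (hq₀ : ∀ t, q₀ (bl t) ≤ q t)
    (a : (i : ι) → Sym σ (d i) → E) (ap : (t : κ) → Sym σ (b t) → E)
    (ah : (t : κ) → Sym σ (q t) → E) (D : Ix σ q → Derivation ℤ E E)
    (jj : τ → Ix σ q) (θ : τ → Ix σ q → E) (hD : Dual q ah D jj θ)
    (hM : MovB bl d b q a ap ah D) (Y : Finset ι) (hN : NulP bl ap Y) (u v : σ → E) (β₁ β₂ : σ)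
    (hdet : u β₁ * v β₂ - u β₂ * v β₁ ≠ 0) (hP : ∀ i, ∃ t, bl t = i ∧ lf (ap t) u v ≠ 0)
    {ζ : Type*} [Fintype ζ] (z : ζ → E)
    (hcard : Fintype.card ζ + Fintype.card τ < ∑ i, (qm Y d q₀ i + 1)) :
    ∃ (δ : Derivation ℤ E E) (i : ι) (W : Polynomial E), W ≠ 0 ∧ (∀ m, δ (z m) = 0) ∧
      ∀ n : E, (∀ l, δ (u l + n * v l) = 0) →
        δ (form (a i) fun l => u l + n * v l) = W.eval n := by
  classical
  set Λ : (Ix σ q → E) →ₗ[E] (ζ ⊕ τ → E) :=
    { toFun := fun f => Sum.elim (fun m => ∑ s, f s * D s (z m)) fun j => ∑ s, f s * θ j s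
      map_add' := fun f g => by
        funext t
        rcases t with m | j <;> simp [add_mul, Finset.sum_add_distrib]
      map_smul' := fun c f => by
        funext t
        rcases t with m | j <;> simp [Finset.mul_sum, mul_assoc] } with hΛ
  obtain ⟨f, hf, i, hW⟩ := line_core bl d q₀ b q hM.deg hq₀ ap Y hN u v β₁ β₂ hdet hP Λ (by
    rw [Module.finrank_fintype_fun_eq_card, Fintype.card_sum]
    exact hcard)
  have hf1 : ∀ m, ∑ s, f s * D s (z m) = 0 := fun m => congrFun hf (Sum.inl m)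
  have hf2 : ∀ j, ∑ s, f s * θ j s = 0 := fun j => congrFun hf (Sum.inr j)
  set δ : Derivation ℤ E E := ∑ s, f s • D s with hδ
  have hδa : ∀ y, δ y = ∑ s, f s * D s y := by
    intro y
    have h1 : δ y = (Derivation.coeFnAddMonoidHom δ) y := rfl
    rw [h1, hδ, map_sum, Finset.sum_apply]
    rfl
  have hδh : ∀ (t : κ) (J : Sym σ (q t)), δ (ah t J) = f ⟨t, J⟩ := by
    intro t J
    rw [hδa]
    have h1 : ∀ s, f s * D s (ah t J) = (if s = ⟨t, J⟩ then f s else 0) -
        ∑ j, if jj j = ⟨t, J⟩ then f s * θ j s else 0 := by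
      intro s
      rw [hD s ⟨t, J⟩, mul_sub, mul_ite, mul_one, mul_zero, Finset.mul_sum]
      congr 1
      exact Finset.sum_congr rfl fun j _ => by rw [mul_ite, mul_zero]
    rw [Finset.sum_congr rfl fun s _ => h1 s, Finset.sum_sub_distrib, Finset.sum_comm,
      Finset.sum_ite_eq' Finset.univ, if_pos (Finset.mem_univ _)]
    have h2 : ∑ j, ∑ s, (if jj j = ⟨t, J⟩ then f s * θ j s else 0) = 0 := by
      refine Finset.sum_eq_zero fun j _ => ?_
      split_ifs
      · exact hf2 j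
      · exact Finset.sum_const_zero
    rw [h2, sub_zero]
  refine ⟨δ, i, _, hW, fun m => by rw [hδa]; exact hf1 m, fun n hn => ?_⟩
  set x : σ → E := fun l => u l + n * v l with hx
  obtain ⟨g, hg, _⟩ := Pool.Agent.Helper8.LG.kf_grad_form (a i) x
  rw [hg δ, Finset.sum_eq_zero (s := Finset.univ) (f := fun l => g l * δ (x l))
    (fun l _ => by rw [hn l, mul_zero]), add_zero]
  have hsum : ∀ {m : ℕ} (c : Sym σ m → E), ∑ J, δ (c J) * mon x J =
      ∑ s, f s * ∑ J, D s (c J) * mon x J := by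
    intro m c
    have h2 : ∀ J : Sym σ m, δ (c J) * mon x J = ∑ s, f s * (D s (c J) * mon x J) := by
      intro J
      rw [hδa, Finset.sum_mul]
      exact Finset.sum_congr rfl fun s _ => mul_assoc _ _ _
    rw [Finset.sum_congr rfl fun J _ => h2 J, Finset.sum_comm]
    exact Finset.sum_congr rfl fun s _ => (Finset.mul_sum _ _ _).symm
  have h3 : ∀ s, f s * ∑ J, D s (a i J) * mon x J = ∑ t, if bl t = i then
      form (ap t) x * (f s * ∑ J, D s (ah t J) * mon x J) else 0 := by
    intro s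
    rw [hM.mov.der s i x, Finset.mul_sum]
    refine Finset.sum_congr rfl fun t _ => ?_
    split_ifs
    · ring
    · rw [mul_zero]
  rw [hsum, Finset.sum_congr rfl fun s _ => h3 s, Finset.sum_comm, Polynomial.eval_finsetSum]
  refine Finset.sum_congr rfl fun t _ => ?_
  split_ifs with ht
  · rw [← Finset.mul_sum, ← hsum, Polynomial.eval_mul, lf_eval, lf_eval]
    congr 1
    unfold form
    exact Finset.sum_congr rfl fun J _ => by rw [hδh]
  · rw [Finset.sum_const_zero, Polynomial.eval_zero]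

/-- A line is not contained in all the hypersurfaces. -/
theorem gen_line {E : Type*} [Field E] [CharZero E] {σ ι κ τ : Type*} [Fintype σ]
    [DecidableEq σ] [Fintype ι] [DecidableEq ι] [Fintype κ] [DecidableEq κ] [Fintype τ]
    (bl : κ → ι) (d q₀ : ι → ℕ) (b q : κ → ℕ) (hq₀ : ∀ t, q₀ (bl t) ≤ q t)
    (a : (i : ι) → Sym σ (d i) → E) (p : (t : κ) → Sym σ (b t) → E)
    (h : (t : κ) → Sym σ (q t) → E) (D : Ix σ q → Derivation ℤ E E)
    (jj : τ → Ix σ q) (θ : τ → Ix σ q → E) (hD : Dual q h D jj θ)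
    (hM : MovB bl d b q a p h D) (Y : Finset ι) (hN : NulP bl p Y)
    (α β : σ) (hαβ : α ≠ β)
    (u v : σ → E) (huα : u α = 1) (huβ : u β = 0) (hvα : v α = 0) (hvβ : v β = 1)
    (y : σ → E) (hy : ∀ l, y l = y α * u l + y β * v l)
    (hPy : ∀ i, ∃ t, bl t = i ∧ form (p t) y ≠ 0)
    (hcount : 2 * Fintype.card σ + Fintype.card τ ≤ ∑ i, (qm Y d q₀ i + 1) + 3) :
    ∃ (i : ι) (n : ℕ), form (a i) (fun l => u l + n * v l) ≠ 0 := by
  classical
  by_contra hcon
  push Not at hcon
  have hcard : Fintype.card {l : σ // l ≠ α ∧ l ≠ β} + 2 = Fintype.card σ := by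
    have h1 : Fintype.card {l : σ // l ≠ α ∧ l ≠ β} =
        (Finset.univ.filter fun l : σ => l ≠ α ∧ l ≠ β).card := Fintype.card_subtype _
    have h2 : (Finset.univ.filter fun l : σ => l ≠ α ∧ l ≠ β) = Finset.univ \ {α, β} := by
      ext l
      simp
    rw [h1, h2, Finset.card_sdiff_of_subset (Finset.subset_univ _), Finset.card_pair hαβ,
      Finset.card_univ]
    have h3 : 2 ≤ Fintype.card σ := by
      rw [← Finset.card_pair hαβ]
      exact Finset.card_le_univ _
    omega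
  have hPl : ∀ i, ∃ t, bl t = i ∧ lf (p t) u v ≠ 0 := by
    intro i
    obtain ⟨t, ht, hty⟩ := hPy i
    refine ⟨t, ht, fun h0 => hty ?_⟩
    have h1 : y = fun l => y α * u l + y β * v l := funext hy
    rw [h1]
    refine Pool.Agent.Helper10.LV.line_zero (p t) u v (fun m => ?_) (y α) (y β)
    rw [← lf_eval, h0, Polynomial.eval_zero]
  obtain ⟨δ, i, W, hW, hδ, hform⟩ := exists_killer bl d q₀ b q hq₀ a p h D jj θ hD hM Y hN u v
    α β (by rw [huα, huβ, hvα, hvβ]; simp) hPl
    (ζ := {l : σ // l ≠ α ∧ l ≠ β} × Bool) (fun m => if m.2 then u m.1 else v m.1) (by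
      rw [Fintype.card_prod, Fintype.card_bool]
      omega)
  have hδu : ∀ l, δ (u l) = 0 := by
    intro l
    by_cases h1 : l = α
    · rw [h1, huα, Derivation.map_one_eq_zero]
    · by_cases h2 : l = β
      · rw [h2, huβ, map_zero]
      · exact hδ (⟨l, h1, h2⟩, true)
  have hδv : ∀ l, δ (v l) = 0 := by
    intro l
    by_cases h1 : l = α
    · rw [h1, hvα, map_zero]
    · by_cases h2 : l = β
      · rw [h2, hvβ, Derivation.map_one_eq_zero]
      · exact hδ (⟨l, h1, h2⟩, false)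
  apply hW
  refine Polynomial.eq_zero_of_infinite_isRoot _ ?_
  refine Set.infinite_of_injective_forall_mem (f := fun m : ℕ => (m : E)) Nat.cast_injective
    fun m => ?_
  show W.eval (m : E) = 0
  rw [← hform m, hcon i m, map_zero]
  intro l
  rw [map_add, hδu, zero_add, Derivation.leibniz, hδv, smul_zero, zero_add,
    Derivation.map_natCast, smul_zero]

/-- The forms do not all vanish in at most two points of a line. -/
theorem no_two {E : Type*} [Field E] [CharZero E] {σ ι κ τ : Type*} [Fintype σ]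
    [DecidableEq σ] [Fintype ι] [DecidableEq ι] [Fintype κ] [DecidableEq κ] [Fintype τ]
    (bl : κ → ι) (d q₀ : ι → ℕ) (b q : κ → ℕ) (hq₀ : ∀ t, q₀ (bl t) ≤ q t)
    (a : (i : ι) → Sym σ (d i) → E) (ap : (t : κ) → Sym σ (b t) → E)
    (ah : (t : κ) → Sym σ (q t) → E) (D : Ix σ q → Derivation ℤ E E)
    (jj : τ → Ix σ q) (θ : τ → Ix σ q → E) (hD : Dual q ah D jj θ)
    (hM : MovB bl d b q a ap ah D) (Y : Finset ι) (hN : NulP bl ap Y)
    (p p' : σ → E) (α β : σ) (hdet : p α * p' β - p β * p' α ≠ 0)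
    (hP : ∀ i, ∃ t, bl t = i ∧ ∃ x y : E, form (ap t) (fun l => x * p l + y * p' l) ≠ 0)
    (ip iq : σ) (hp : p ip = 1) (hq : p' iq = 1) (U : Finset ι) (e : ι → E) (c : ι → ℕ)
    (he : ∀ i ∉ U, e i = 0)
    (h : ∀ (i : ι) (n : ℕ), form (a i) (fun l => p l + n * p' l) = e i * (n : E) ^ c i)
    (hcount : 2 * Fintype.card σ + U.card + Fintype.card τ <
      ∑ i, (qm Y d q₀ i + 1) + 2) : False := by
  classical
  have hcard : ∀ j : σ, Fintype.card {l : σ // l ≠ j} + 1 = Fintype.card σ := by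
    intro j
    have h1 : Fintype.card {l : σ // l ≠ j} = Fintype.card σ - 1 := by
      rw [Fintype.card_subtype_compl (fun l => l = j)]
      simp
    have h2 : 0 < Fintype.card σ := Fintype.card_pos_iff.2 ⟨j⟩
    omega
  have hPl : ∀ i, ∃ t, bl t = i ∧ lf (ap t) p p' ≠ 0 := by
    intro i
    obtain ⟨t, ht, x, y, hxy⟩ := hP i
    refine ⟨t, ht, fun h0 => hxy ?_⟩
    refine Pool.Agent.Helper10.LV.line_zero (ap t) p p' (fun m => ?_) x y
    rw [← lf_eval, h0, Polynomial.eval_zero]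
  obtain ⟨δ, i, W, hW, hδ, hform⟩ := exists_killer bl d q₀ b q hq₀ a ap ah D jj θ hD hM Y hN
    p p' α β hdet hPl (ζ := ({l : σ // l ≠ ip} ⊕ {l : σ // l ≠ iq}) ⊕ U)
    (Sum.elim (Sum.elim (fun l => p l) fun l => p' l) fun i => e i) (by
      rw [Fintype.card_sum, Fintype.card_sum, Fintype.card_coe]
      have h1 := hcard ip
      have h2 := hcard iq
      omega)
  have hδp : ∀ l, δ (p l) = 0 := by
    intro l
    by_cases h1 : l = ip
    · rw [h1, hp, Derivation.map_one_eq_zero]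
    · exact hδ (Sum.inl (Sum.inl ⟨l, h1⟩))
  have hδq : ∀ l, δ (p' l) = 0 := by
    intro l
    by_cases h1 : l = iq
    · rw [h1, hq, Derivation.map_one_eq_zero]
    · exact hδ (Sum.inl (Sum.inr ⟨l, h1⟩))
  have hδe : ∀ i, δ (e i) = 0 := by
    intro i
    by_cases h1 : i ∈ U
    · exact hδ (Sum.inr ⟨i, h1⟩)
    · rw [he i h1, map_zero]
  apply hW
  refine Polynomial.eq_zero_of_infinite_isRoot _ ?_
  refine Set.infinite_of_injective_forall_mem (f := fun m : ℕ => (m : E)) Nat.cast_injective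
    fun n => ?_
  show W.eval (n : E) = 0
  rw [← hform n, h i n, Derivation.leibniz, hδe, smul_zero, add_zero]
  · have h1 : δ ((n : E) ^ c i) = 0 := by
      rw [Derivation.leibniz_pow, Derivation.map_natCast, smul_zero, smul_zero]
    rw [h1, smul_zero]
  · intro l
    rw [map_add, hδp, zero_add, Derivation.leibniz, hδq, smul_zero, zero_add,
      Derivation.map_natCast, smul_zero]

end Pool.Agent.Helper10.CT
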