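import Pool.Agent.Helper10.LB.DerExt
import Pool.Agent.Helper10.CT.GenLine

/-! # CT: lines meet the divisor in at least three points, nonlinear families -/

set_option autoImplicit false

namespace Pool.Agent.Helper10.CT

open scoped BigOperators
open Polynomial Pool.Agent.Helper8.LG Pool.Agent.Helper10.LB
open Pool.Agent.Helper6.CO (Fam Mov Nul qm)
open Pool.Agent.Helper8.CO (NulP nulP_map)

private theorem ntv_scale {K σ : Type*} [Field K] [Fintype σ] [DecidableEq σ] {n : ℕ}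
    (a : Sym σ n → K) (c : K) (x : σ → K) : form a (fun l => c * x l) = c ^ n * form a x := by
  unfold form
  rw [Finset.mul_sum]
  refine Finset.sum_congr rfl fun J _ => ?_
  have h : mon (fun l => c * x l) J = c ^ n * mon x J := by
    unfold mon
    rw [Multiset.prod_map_mul, Multiset.map_const', Multiset.prod_replicate, Sym.card_coe]
  rw [h]
  ring

/-- the homogeneous version of `lf` with two roots -/
private theorem ntv_hom {K : Type*} [Field K] {σ : Type*} [Fintype σ] [DecidableEq σ] {n : ℕ}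
    (a : Sym σ n → K) (u v : σ → K) (ρ₁ ρ₂ : K) (α β : ℕ) (hαβ : α + β = n)
    (h : lf a u v = C (form a v) * ((X - C ρ₁) ^ α * (X - C ρ₂) ^ β)) (x y : K) :
    form a (fun l => x * (u l + ρ₁ * v l) + y * (u l + ρ₂ * v l)) =
      form a v * ((y * (ρ₂ - ρ₁)) ^ α * (x * (ρ₁ - ρ₂)) ^ β) := by
  by_cases hxy : x + y = 0
  · have hx : x = -y := by linear_combination hxy
    have h1 : (fun l => x * (u l + ρ₁ * v l) + y * (u l + ρ₂ * v l)) =
        fun l => (y * (ρ₂ - ρ₁)) * v l := by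
      funext l
      rw [hx]
      ring
    have h2 : x * (ρ₁ - ρ₂) = y * (ρ₂ - ρ₁) := by
      rw [hx]
      ring
    rw [h1, ntv_scale, h2, ← pow_add, hαβ]
    ring
  · set z : K := (x * ρ₁ + y * ρ₂) / (x + y) with hz
    have hz1 : (x + y) * z = x * ρ₁ + y * ρ₂ := by
      rw [hz]
      field_simp
    have h1 : (fun l => x * (u l + ρ₁ * v l) + y * (u l + ρ₂ * v l)) =
        fun l => (x + y) * (u l + z * v l) := by
      funext l
      linear_combination (-v l) * hz1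
    have h2 : y * (ρ₂ - ρ₁) = (x + y) * (z - ρ₁) := by
      linear_combination -hz1
    have h3 : x * (ρ₁ - ρ₂) = (x + y) * (z - ρ₂) := by
      linear_combination -hz1
    have h5 : (x + y) ^ n = (x + y) ^ α * (x + y) ^ β := by rw [← pow_add, hαβ]
    rw [h1, ntv_scale, ← lf_eval, h, h2, h3, mul_pow, mul_pow, h5]
    simp only [eval_mul, eval_C, eval_pow, eval_sub, eval_X]
    ring

/-- the factorisation -/
private theorem ntv_fact {K : Type*} [Field K] (f h : K[X]) (hf0 : f ≠ 0) (hh0 : h ≠ 0)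
    (hh : h.Splits) (k : ℕ) (hdvd : f ∣ h ^ k) (ρ₁ ρ₂ : K) (hρ : ρ₁ ≠ ρ₂)
    (hr : ∀ r ∈ h.roots, r = ρ₁ ∨ r = ρ₂) :
    ∃ α β : ℕ, α + β = f.natDegree ∧
      f = C f.leadingCoeff * ((X - C ρ₁) ^ α * (X - C ρ₂) ^ β) := by
  classical
  have hs : f.Splits := (hh.pow k).of_dvd (pow_ne_zero _ hh0) hdvd
  have hsub : f.roots.toFinset ⊆ {ρ₁, ρ₂} := by
    intro r hr1
    rw [Multiset.mem_toFinset, mem_roots hf0] at hr1
    have h1 : (h ^ k).IsRoot r := hr1.dvd hdvd
    rw [IsRoot, eval_pow] at h1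
    have h2 : r ∈ h.roots := by
      rw [mem_roots hh0]
      exact eq_zero_of_pow_eq_zero h1
    rcases hr r h2 with h3 | h3
    · simp [h3]
    · simp [h3]
  refine ⟨f.roots.count ρ₁, f.roots.count ρ₂, ?_, ?_⟩
  · rw [hs.natDegree_eq_card_roots, ← Multiset.toFinset_sum_count_eq,
      Finset.sum_subset hsub fun r _ h1 => ?_, Finset.sum_pair hρ]
    rw [Multiset.mem_toFinset] at h1
    exact Multiset.count_eq_zero_of_notMem h1
  · conv_lhs => rw [hs.eq_prod_roots]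
    congr 1
    rw [Finset.prod_multiset_map_count, Finset.prod_subset hsub fun r _ h1 => ?_,
      Finset.prod_pair hρ]
    rw [Multiset.mem_toFinset] at h1
    rw [Multiset.count_eq_zero_of_notMem h1, pow_zero]

/-- at most two roots -/
private theorem ntv_roots {K : Type*} [Field K] (h : K[X]) (hn : h.natDegree ≤ 2) :
    ∃ ρ₁ ρ₂ : K, ρ₁ ≠ ρ₂ ∧ ∀ r ∈ h.roots, r = ρ₁ ∨ r = ρ₂ := by
  classical
  have h1 : h.roots.toFinset.card ≤ 2 :=
    (Multiset.toFinset_card_le _).trans ((card_roots' h).trans hn)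
  rcases Nat.lt_or_ge h.roots.toFinset.card 2 with h2 | h2
  · rcases Nat.eq_zero_or_pos h.roots.toFinset.card with h3 | h3
    · refine ⟨0, 1, zero_ne_one, fun r hr => ?_⟩
      rw [Finset.card_eq_zero] at h3
      rw [← Multiset.mem_toFinset, h3] at hr
      exact absurd hr (Finset.notMem_empty _)
    · obtain ⟨ρ, hρ⟩ := Finset.card_eq_one.1 (by omega : h.roots.toFinset.card = 1)
      refine ⟨ρ, ρ + 1, fun h4 => ?_, fun r hr => ?_⟩
      · exact one_ne_zero (left_eq_add.1 h4)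
      · rw [← Multiset.mem_toFinset, hρ, Finset.mem_singleton] at hr
        exact Or.inl hr
  · obtain ⟨ρ₁, ρ₂, hne, hρ⟩ := Finset.card_eq_two.1 (le_antisymm h1 h2)
    refine ⟨ρ₁, ρ₂, hne, fun r hr => ?_⟩
    rw [← Multiset.mem_toFinset, hρ, Finset.mem_insert, Finset.mem_singleton] at hr
    exact hr

/-- If `F_i = 0` on the line `u + Y v` for `i ∈ Z` and the `F_i(u + Y v)`, `i ∉ Z`, have full
degree, then together they have at least three distinct roots (over an algebraic closure). -/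
theorem three_roots {E : Type*} [Field E] [CharZero E] {σ ι κ τ : Type*} [Fintype σ]
    [DecidableEq σ] [Fintype ι] [DecidableEq ι] [Fintype κ] [DecidableEq κ] [Fintype τ]
    (bl : κ → ι) (d q₀ : ι → ℕ) (b q : κ → ℕ) (hq₀ : ∀ t, q₀ (bl t) ≤ q t)
    (a : (i : ι) → Sym σ (d i) → E) (ap : (t : κ) → Sym σ (b t) → E)
    (ah : (t : κ) → Sym σ (q t) → E) (D : Ix σ q → Derivation ℤ E E)
    (jj : τ → Ix σ q) (θ : τ → Ix σ q → E) (hD : Dual q ah D jj θ)
    (hM : MovB bl d b q a ap ah D) (Z Y : Finset ι) (hN : NulP bl ap Y)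
    (hnum : 2 * Fintype.card σ + Fintype.card τ ≤ ∑ i, qm Y d q₀ i + Z.card + 1)
    (u v : σ → E) (β₁ β₂ : σ) (hpi : u β₁ * v β₂ - u β₂ * v β₁ ≠ 0)
    (hP : ∀ i, ∃ t, bl t = i ∧ lf (ap t) u v ≠ 0)
    (hZ : ∀ i ∈ Z, lf (a i) u v = 0) (hU : ∀ i ∉ Z, form (a i) v ≠ 0)
    (h : E[X]) (h0 : h ≠ 0) (hdvd : ∀ i ∉ Z, ∃ n, lf (a i) u v ∣ h ^ n) :
    3 ≤ h.natDegree := by
  classical
  by_contra hlt
  have hn2 : h.natDegree ≤ 2 := by omega
  let K := h.SplittingField
  let φ : E →+* K := algebraMap E K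
  have hφ : Function.Injective φ := φ.injective
  have : CharZero K := charZero_of_injective_algebraMap hφ
  -- the polynomial over `K`
  have hhK0 : h.map φ ≠ 0 := (Polynomial.map_ne_zero_iff hφ).2 h0
  have hhK : (h.map φ).Splits := SplittingField.splits h
  obtain ⟨ρ₁, ρ₂, hρ, hroots⟩ := ntv_roots (h.map φ) (by rw [natDegree_map]; exact hn2)
  -- derivations
  choose D' hD' using fun s : Ix σ q => der_ext (K := K) (D s)
  have hDual : Dual q (fun i J => φ (ah i J)) D' jj (fun j s => φ (θ j s)) := by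
    intro s t
    have h1 := hD' s (ah t.1 t.2)
    rw [hD s t] at h1
    rw [show D' s (φ (ah t.1 t.2)) = _ from h1, map_sub, map_sum]
    congr 1
    · split_ifs
      · exact map_one φ
      · exact map_zero φ
    · refine Finset.sum_congr rfl fun j _ => ?_
      split_ifs
      · rfl
      · exact map_zero φ
  have hMov : MovB bl d b q (fun i J => φ (a i J))
      (fun t J => φ (ap t J)) (fun t J => φ (ah t J)) D' :=
    hM.map φ D' fun s x => hD' s x
  -- factorisations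
  have hfac : ∀ i ∉ Z, ∃ α β : ℕ, α + β = d i ∧
      lf (fun J => φ (a i J)) (fun l => φ (u l)) (fun l => φ (v l)) =
        C (form (fun J => φ (a i J)) fun l => φ (v l)) *
          ((X - C ρ₁) ^ α * (X - C ρ₂) ^ β) := by
    intro i hi
    obtain ⟨k, hk⟩ := hdvd i hi
    have hv : form (fun J => φ (a i J)) (fun l => φ (v l)) ≠ 0 := by
      rw [← pd_map_form]
      exact (map_ne_zero φ).2 (hU i hi)
    have hc := lf_coeff_top (fun J => φ (a i J)) (fun l => φ (u l)) (fun l => φ (v l))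
    have hle := lf_natDegree_le (fun J => φ (a i J)) (fun l => φ (u l)) (fun l => φ (v l))
    have hdeg : (lf (fun J => φ (a i J)) (fun l => φ (u l)) (fun l => φ (v l))).natDegree =
        d i := by
      refine le_antisymm hle (le_natDegree_of_ne_zero ?_)
      rw [hc]
      exact hv
    have hf0 : lf (fun J => φ (a i J)) (fun l => φ (u l)) (fun l => φ (v l)) ≠ 0 := by
      intro h1
      rw [h1, coeff_zero] at hc
      exact hv hc.symm
    obtain ⟨α, β, h1, h2⟩ := ntv_fact _ _ hf0 hhK0 hhK k (by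
      rw [← lf_map, ← Polynomial.map_pow]
      exact Polynomial.map_dvd φ hk) ρ₁ ρ₂ hρ hroots
    refine ⟨α, β, h1.trans hdeg, ?_⟩
    rw [leadingCoeff, hdeg, hc] at h2
    exact h2
  choose! α β hαβ hlf using hfac
  -- the two points
  set p : σ → K := fun l => φ (u l) + ρ₁ * φ (v l) with hp
  set p' : σ → K := fun l => φ (u l) + ρ₂ * φ (v l) with hp'
  have hdet : p β₁ * p' β₂ - p β₂ * p' β₁ ≠ 0 := by
    have h1 : p β₁ * p' β₂ - p β₂ * p' β₁ = (ρ₂ - ρ₁) * φ (u β₁ * v β₂ - u β₂ * v β₁) := by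
      rw [hp, hp', map_sub, map_mul, map_mul]
      ring
    rw [h1]
    exact mul_ne_zero (sub_ne_zero.2 hρ.symm) ((map_ne_zero φ).2 hpi)
  obtain ⟨ip, hip⟩ : ∃ l, p l ≠ 0 := by
    by_contra! h1
    rw [h1 β₁, h1 β₂] at hdet
    simp at hdet
  obtain ⟨iq, hiq⟩ : ∃ l, p' l ≠ 0 := by
    by_contra! h1
    rw [h1 β₁, h1 β₂] at hdet
    simp at hdet
  have hform : ∀ i (x y : K), form (fun J => φ (a i J)) (fun l => x * p l + y * p' l) =
      if i ∈ Z then 0 else form (fun J => φ (a i J)) (fun l => φ (v l)) *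
        ((y * (ρ₂ - ρ₁)) ^ α i * (x * (ρ₁ - ρ₂)) ^ β i) := by
    intro i x y
    split_ifs with hi
    · have h1 : lf (fun J => φ (a i J)) (fun l => φ (u l)) (fun l => φ (v l)) = 0 := by
        rw [← lf_map, hZ i hi, Polynomial.map_zero]
      have h2 : form (fun J => φ (a i J)) (fun l => φ (v l)) = 0 := by
        rw [← lf_coeff_top (fun J => φ (a i J)) (fun l => φ (u l)) (fun l => φ (v l)), h1,
          coeff_zero]
      have h3 := ntv_hom (fun J => φ (a i J)) (fun l => φ (u l)) (fun l => φ (v l)) ρ₁ ρ₂ (d i) 0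
        (Nat.add_zero _) (by rw [h1, h2, C_0, zero_mul]) x y
      rw [h2, zero_mul] at h3
      exact h3
    · exact ntv_hom _ _ _ ρ₁ ρ₂ (α i) (β i) (hαβ i hi) (hlf i hi) x y
  have hPK : ∀ i, ∃ t, bl t = i ∧ ∃ x y : K, form (fun J => φ (ap t J))
      (fun l => x * ((p ip)⁻¹ * p l) + y * ((p' iq)⁻¹ * p' l)) ≠ 0 := by
    intro i
    obtain ⟨t, ht, htP⟩ := hP i
    refine ⟨t, ht, ?_⟩
    by_contra! hcon
    have hlf : lf (fun J => φ (ap t J)) (fun l => φ (u l)) (fun l => φ (v l)) ≠ 0 := by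
      rw [← lf_map]
      exact (Polynomial.map_ne_zero_iff hφ).2 htP
    apply hlf
    refine Polynomial.eq_zero_of_infinite_isRoot _ ?_
    refine Set.infinite_of_injective_forall_mem (f := fun n : ℕ => (n : K)) Nat.cast_injective
      fun n => ?_
    show (lf (fun J => φ (ap t J)) (fun l => φ (u l)) (fun l => φ (v l))).eval (n : K) = 0
    rw [lf_eval, ← hcon ((ρ₂ - n) / (ρ₂ - ρ₁) * p ip) ((n - ρ₁) / (ρ₂ - ρ₁) * p' iq)]
    congr 1
    funext l
    have h1 : ρ₂ - ρ₁ ≠ 0 := sub_ne_zero.2 hρ.symm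
    have h2 : (ρ₂ - n) / (ρ₂ - ρ₁) * p ip * ((p ip)⁻¹ * p l) = (ρ₂ - n) / (ρ₂ - ρ₁) * p l := by
      rw [mul_assoc, mul_inv_cancel_left₀ hip]
    have h3 : (n - ρ₁) / (ρ₂ - ρ₁) * p' iq * ((p' iq)⁻¹ * p' l) =
        (n - ρ₁) / (ρ₂ - ρ₁) * p' l := by
      rw [mul_assoc, mul_inv_cancel_left₀ hiq]
    rw [h2, h3, hp, hp']
    have h4 : (ρ₂ - n) / (ρ₂ - ρ₁) + (n - ρ₁) / (ρ₂ - ρ₁) = 1 := by
      rw [← add_div, sub_add_sub_cancel, div_self h1]
    have h5 : (ρ₂ - n) / (ρ₂ - ρ₁) * ρ₁ + (n - ρ₁) / (ρ₂ - ρ₁) * ρ₂ = n := by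
      rw [div_mul_eq_mul_div, div_mul_eq_mul_div, ← add_div, div_eq_iff h1]
      ring
    linear_combination (-φ (u l)) * h4 - φ (v l) * h5
  refine no_two bl d q₀ b q hq₀ (fun i J => φ (a i J)) (fun t J => φ (ap t J))
    (fun t J => φ (ah t J)) D' jj (fun j s => φ (θ j s))
    hDual hMov Y (nulP_map bl ap Y hN φ) (fun l => (p ip)⁻¹ * p l) (fun l => (p' iq)⁻¹ * p' l)
    β₁ β₂ ?_ hPK ip iq
    (inv_mul_cancel₀ hip) (inv_mul_cancel₀ hiq) Zᶜ
    (fun i => if i ∈ Z then 0 else form (fun J => φ (a i J)) (fun l => φ (v l)) *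
        (((p' iq)⁻¹ * (ρ₂ - ρ₁)) ^ α i * ((p ip)⁻¹ * (ρ₁ - ρ₂)) ^ β i)) α ?_ ?_ ?_
  · have h1 : (p ip)⁻¹ * p β₁ * ((p' iq)⁻¹ * p' β₂) - (p ip)⁻¹ * p β₂ * ((p' iq)⁻¹ * p' β₁) =
        (p ip)⁻¹ * (p' iq)⁻¹ * (p β₁ * p' β₂ - p β₂ * p' β₁) := by ring
    rw [h1]
    exact mul_ne_zero (mul_ne_zero (inv_ne_zero hip) (inv_ne_zero hiq)) hdet
  · intro i hi
    rw [Finset.mem_compl, not_not] at hi
    rw [if_pos hi]
  · intro i n
    have h1 : (fun l => (p ip)⁻¹ * p l + (n : K) * ((p' iq)⁻¹ * p' l)) =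
        fun l => (p ip)⁻¹ * p l + ((n : K) * (p' iq)⁻¹) * p' l := by
      funext l
      ring
    rw [h1, hform]
    split_ifs
    · rw [zero_mul]
    · rw [mul_assoc (n : K), mul_pow (n : K)]
      ring
  · have h1 : Zᶜ.card = Fintype.card ι - Z.card := Finset.card_compl Z
    have h2 : Z.card ≤ Fintype.card ι := Finset.card_le_univ Z
    have h3 : ∑ i, (qm Y d q₀ i + 1) = ∑ i, qm Y d q₀ i + Fintype.card ι := by
      rw [Finset.sum_add_distrib, Finset.sum_const, smul_eq_mul, mul_one, Finset.card_univ]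
    omega

end Pool.Agent.Helper10.CT
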