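import Pool.Agent.Helper10.LB.OmBdd
import Pool.Agent.Helper10.LB.OmMason
import Pool.Agent.Helper10.LB.Consts
import Pool.Agent.Helper10.LB.Riccati
import Pool.Agent.Helper10.CT.NoTwo
import Pool.Agent.Helper10.LB.CaseTwo
import Pool.Agent.Helper8.LG.DirTwo

/-! # CT: the coordinate of an integral point on a bounded line is bounded -/

set_option autoImplicit false

namespace Pool.Agent.Helper10.CT

open scoped BigOperators
open Polynomial Pool.Agent.Helper8.LG Pool.Agent.Helper10.LB
open Pool.Agent.Helper6.CO (Fam Mov Nul qm)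
open Pool.Agent.Helper8.CO (NulP nulP_map)

/-- **The coordinate `z` of the integral point `x = lam (u + z v)` on the bounded line `u, v` is
algebraic over the bounded elements.** -/
theorem case_two {k L Ω : Type*} [Field k] [Field L] [CharZero L] [Algebra k L] [Field Ω]
    {Q : (ℕ → L) →+* Ω} (hQ : IsUl Q) {T : Type*} [Finite T] [DecidableEq T] (y : T → L)
    {σ ι κ τ : Type*} [Fintype σ] [DecidableEq σ]
    [Fintype ι] [DecidableEq ι] [Fintype κ] [DecidableEq κ] [Fintype τ]
    {bl : κ → ι} {d q₀ : ι → ℕ} {b q : κ → ℕ} (hq₀ : ∀ t, q₀ (bl t) ≤ q t)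
    (a : (i : ι) → Sym σ (d i) → L) (ap : (t : κ) → Sym σ (b t) → L)
    (ah : (t : κ) → Sym σ (q t) → L) (D : Ix σ q → Derivation ℤ L L) (hy : Dirs k y D)
    (jj : τ → Ix σ q) (θ : τ → Ix σ q → L) (hD : Dual q ah D jj θ)
    (hM : MovB bl d b q a ap ah D) (Z Y : Finset ι) (hN : NulP bl ap Y)
    (hnum : 2 * Fintype.card σ + Fintype.card τ ≤ ∑ i, qm Y d q₀ i + Z.card + 1)
    (A : Subalgebra k L) (hA : A.FG) (X : ℕ → σ → L) (hX : ∀ m, Pt a Z A.toSubring (X m))
    (hXp : ∀ m i, ∃ t, bl t = i ∧ form (ap t) (X m) ≠ 0)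
    (u v : σ → Ω) (hu : ∀ l, u l ∈ BF k hQ) (hv : ∀ l, v l ∈ BF k hQ) (β β' : σ)
    (hpi : u β * v β' - u β' * v β ≠ 0)
    (htop : ∀ i ∉ Z, form (fun J => Q fun _ => a i J) v ≠ 0) (lam z : Ω) (hlam : lam ≠ 0)
    (hx : ∀ l, (Q fun m => X m l) = lam * (u l + z * v l)) :
    IsAlgebraic (BF k hQ) z := by
  classical
  by_contra hz
  have hz' : Transcendental (BF k hQ) z := hz
  have hzF : z ∉ BF k hQ := by
    intro h
    exact hz (isAlgebraic_algebraMap (⟨z, h⟩ : BF k hQ))
  have : CharZero Ω := by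
    have hinj : Function.Injective (Q.comp (Pi.constRingHom ℕ L)) :=
      (Q.comp (Pi.constRingHom ℕ L)).injective
    exact charZero_of_injective_ringHom hinj
  -- the line over the field of the bounded elements
  set F := BF k hQ with hF
  set u' : σ → F := fun l => ⟨u l, hu l⟩ with hu'
  set v' : σ → F := fun l => ⟨v l, hv l⟩ with hv'
  set a' : (i : ι) → Sym σ (d i) → F := fun i J => ⟨Q fun _ => a i J, const_mem hQ _⟩ with ha'
  have hmap : ∀ i, (lf (a' i) u' v').map F.subtype = lf (fun J => Q fun _ => a i J) u v := by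
    intro i
    rw [lf_map]
    rfl
  have hev0 : ∀ p : F[X], (p.map F.subtype).eval z = 0 → p = 0 := by
    intro p hp
    by_contra h0
    refine hz ⟨p, h0, ?_⟩
    rw [Polynomial.aeval_def, Polynomial.eval₂_eq_eval_map]
    exact hp
  have hform : ∀ i, form (fun J => Q fun _ => a i J) (fun l => u l + z * v l) * lam ^ d i =
      Q fun m => form (a i) (X m) := by
    intro i
    rw [ul_Q_form, funext hx, dirTwo_form_mul, mul_comm]
  have hZ0 : ∀ i ∈ Z, lf (a' i) u' v' = 0 := by
    intro i hi
    refine hev0 _ ?_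
    rw [hmap, lf_eval]
    have h1 := hform i
    have h2 : (fun m => form (a i) (X m)) = 0 := by
      funext m
      exact (hX m).zero i hi
    rw [h2, map_zero] at h1
    exact (mul_eq_zero.1 h1).resolve_right (pow_ne_zero _ hlam)
  have hU0 : ∀ i ∉ Z, lf (a' i) u' v' ≠ 0 := by
    intro i hi h0
    apply htop i hi
    rw [← lf_coeff_top (fun J => Q fun _ => a i J) u v, ← hmap, h0, Polynomial.map_zero,
      Polynomial.coeff_zero]
  set g : F[X] := ∏ i ∈ Zᶜ, lf (a' i) u' v' with hg
  have hg0 : g ≠ 0 := Finset.prod_ne_zero_iff.2 fun i hi => hU0 i (Finset.mem_compl.1 hi)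
  obtain ⟨h, w, hmon, hsep, hw, n, hn⟩ := exists_sqfree g hg0
  have hgmap : (h.map F.subtype) * (w.map F.subtype) =
      ∏ i ∈ Zᶜ, lf (fun J => Q fun _ => a i J) u v := by
    rw [← Polynomial.map_mul, hw, hg, Polynomial.map_prod]
    exact Finset.prod_congr rfl fun i _ => hmap i
  have hr : 3 ≤ (h.map F.subtype).natDegree := by
    have hDual : Dual q (fun i J => Q fun _ => ah i J)
        (fun p => ulDer Q hQ.surj hQ.ker (D p)) jj (fun j s => Q fun _ => θ j s) := by
      intro s t
      have h1 := congrArg (Q.comp (Pi.constRingHom ℕ L)) (hD s t)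
      show ulDer Q hQ.surj hQ.ker (D s) (Q fun _ => ah t.1 t.2) = _
      rw [ulDer_apply]
      rw [map_sub, map_sum] at h1
      have h2 : (Q fun _ => D s (ah t.1 t.2)) =
          (Q.comp (Pi.constRingHom ℕ L)) (D s (ah t.1 t.2)) := rfl
      rw [h2, h1]
      congr 1
      · split_ifs
        · exact map_one _
        · exact map_zero _
      · refine Finset.sum_congr rfl fun j _ => ?_
        split_ifs
        · rfl
        · exact map_zero _
    have hMov : MovB bl d b q (fun i J => Q fun _ => a i J)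
        (fun t J => Q fun _ => ap t J) (fun t J => Q fun _ => ah t J)
        (fun p => ulDer Q hQ.surj hQ.ker (D p)) := by
      refine hM.map (Q.comp (Pi.constRingHom ℕ L)) _ fun s x => ?_
      show ulDer Q hQ.surj hQ.ker (D s) (Q fun _ => x) = _
      rw [ulDer_apply]
      rfl
    have hP0 : ∀ i, ∃ t, bl t = i ∧ lf (fun J => Q fun _ => ap t J) u v ≠ 0 := by
      intro i
      by_contra! hcon
      have h2 : ∀ t : {t : κ // bl t = i}, ∀ᶠ m in (Filter.hyperfilter ℕ : Filter ℕ),
          form (ap t.1) (X m) = 0 := by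
        intro t
        have h1 : (lf (fun J => Q fun _ => ap t.1 J) u v).eval z = 0 := by
          rw [hcon t.1 t.2, eval_zero]
        rw [lf_eval] at h1
        have h3 : (Q fun m => form (ap t.1) (X m)) = 0 := by
          rw [ul_Q_form, funext hx, dirTwo_form_mul, h1, mul_zero]
        exact (hQ.ker _).1 h3
      obtain ⟨m, hm⟩ := (Filter.eventually_all.2 h2).exists
      obtain ⟨t, ht, htm⟩ := hXp m i
      exact htm (hm ⟨t, ht⟩)
    refine three_roots bl d q₀ b q hq₀ (fun i J => Q fun _ => a i J)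
      (fun t J => Q fun _ => ap t J) (fun t J => Q fun _ => ah t J) _ jj _ hDual hMov Z Y
      (nulP_map bl ap Y hN (Q.comp (Pi.constRingHom ℕ L))) hnum
      u v β β' hpi hP0 (fun i hi => ?_) htop _ ?_ fun i hi => ?_
    · rw [← hmap, hZ0 i hi, Polynomial.map_zero]
    · exact (Polynomial.map_ne_zero_iff F.subtype.injective).2 hmon.ne_zero
    · refine ⟨n, ?_⟩
      have h1 : lf (a' i) u' v' ∣ h ^ n :=
        (Finset.dvd_prod_of_mem (fun i => lf (a' i) u' v') (Finset.mem_compl.2 hi)).trans hn
      rw [← hmap, ← Polynomial.map_pow]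
      exact Polynomial.map_dvd F.subtype h1
  rw [Polynomial.natDegree_map] at hr
  -- the polynomials q
  have hq : ∀ p : Ix σ q, ∃ r : F[X], r.natDegree < h.natDegree ∧
      h.map F.subtype ∣ mapD (ulDer Q hQ.surj hQ.ker (D p)) (h.map F.subtype) +
        derivative (h.map F.subtype) * r.map F.subtype := by
    intro p
    obtain ⟨e, he⟩ := exists_lift_sub F (mapD (ulDer Q hQ.surj hQ.ker (D p)) (h.map F.subtype))
      (fun n => by
        rw [coeff_mapD, Polynomial.coeff_map]
        exact der_mem hQ (D p) (hy.ker p) _ (h.coeff n).2)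
    obtain ⟨r, hq1, hq2⟩ := exists_q h e hmon hsep (by omega)
    refine ⟨r, hq1, ?_⟩
    rw [← he, Polynomial.derivative_map, ← Polynomial.map_mul, ← Polynomial.map_add]
    exact Polynomial.map_dvd _ hq2
  choose r hq1 hq2 using hq
  have hDz : ∀ p, ulDer Q hQ.surj hQ.ker (D p) z = ((r p).map F.subtype).eval z := by
    intro p
    refine (mason_bdd hQ y D hy a Z A hA X hX u v hu hv β β' hpi htop lam z hlam hx
      (h.map F.subtype) (w.map F.subtype) (fun n => ?_) (hmon.map _)
      (by rw [Polynomial.natDegree_map]; exact hr) hsep.map hgmap p ((r p).map F.subtype)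
      (fun n => ?_) (by rw [Polynomial.natDegree_map, Polynomial.natDegree_map]; exact hq1 p)
      (hq2 p)).resolve_left hzF
    · rw [Polynomial.coeff_map]
      exact (h.coeff n).2
    · rw [Polynomial.coeff_map]
      exact ((r p).coeff n).2
  have hdeg : ∀ p, ((r p).map F.subtype).natDegree ≤ 2 := by
    intro p
    by_contra hlt
    exact hzF (tail_bdd hQ y D hy p ((r p).map F.subtype)
      (fun n => by rw [Polynomial.coeff_map]; exact ((r p).coeff n).2) (by omega) z (hDz p))
  refine hz (riccati F (fun p => ulDer Q hQ.surj hQ.ker (D p))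
    (fun c hc => const_Ω hQ y D hy c hc) (h.map F.subtype)
    (fun n => by rw [Polynomial.coeff_map]; exact (h.coeff n).2) hsep.map
    (by rw [Polynomial.natDegree_map]; exact hr) (fun p => (r p).map F.subtype) hdeg hq2 z hDz ?_)
  intro h0
  exact hmon.ne_zero (hev0 h h0)

end Pool.Agent.Helper10.CT
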