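import Pool.Agent.Helper8.CO.Final
import Pool.Agent.Helper8.LV.KeyFun

/-! # CT: cases 2 and 3 with `q' = min(d, 2q + 1)`, definitions

`F_i = F0_i(X, H_t : bl t = i)`: the coefficients of the `H_t` move, and
`D_s F_i = ∑ m_t D_s H_t` for all the derivations `D_s` which kill the constants. -/

set_option autoImplicit false

namespace Pool.Agent.Helper10.CT

open scoped BigOperators
open Pool.Agent.Helper8.LG
open Pool.Agent.Helper6.CO (Fam Mov Nul qm)

section

variable {E : Type*} [Field E] {σ ι κ P τ : Type*}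

/-- The chain rule for the coefficients: `D_s F_i = ∑_(bl t = i) m_t D_s H_t`, where `a i`, `p t`,
`h t` are the coefficients of `F_i`, `m_t`, `H_t`. -/
structure MovB [Fintype σ] [DecidableEq σ] [Fintype κ] [DecidableEq ι] (bl : κ → ι) (d : ι → ℕ)
    (b q : κ → ℕ) (a : (i : ι) → Sym σ (d i) → E) (p : (t : κ) → Sym σ (b t) → E)
    (h : (t : κ) → Sym σ (q t) → E) (D : P → Derivation ℤ E E) : Prop where
  deg : ∀ t, d (bl t) = b t + q t
  der : ∀ s i J, D s (a i J) = ∑ t, if bl t = i then ∑ J' : Sym σ (b t), ∑ J'' : Sym σ (q t),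
    (if (J' : Multiset σ) + (J'' : Multiset σ) = (J : Multiset σ) then p t J' * D s (h t J'')
      else 0) else 0

/-- The coefficients of the `F_i` are polynomials over `k` in the coefficients of the `H_t`. -/
def FamB (k : Type*) [Field k] [Algebra k E] [Fintype σ] [DecidableEq σ] [Fintype κ]
    [DecidableEq ι] (bl : κ → ι) (d : ι → ℕ) (b q : κ → ℕ) (a : (i : ι) → Sym σ (d i) → E)
    (p : (t : κ) → Sym σ (b t) → E) (h : (t : κ) → Sym σ (q t) → E) : Prop :=
  ∃ Q : (i : ι) → Sym σ (d i) → MvPolynomial (Ix σ q) k, Fam k bl d b q a p h Q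

/-- `min(d_i, 2 q_i)` for the forms whose `m_t` have no common zero, `q_i` for the others -/
def qn [DecidableEq ι] (Y : Finset ι) (d q : ι → ℕ) (i : ι) : ℕ :=
  if i ∈ Y then min (d i) (2 * q i) else q i

/-- The conclusion of the key lemma for two-vectors. -/
def KeyB [Fintype σ] [DecidableEq σ] [Fintype ι] [Fintype τ] (bl : κ → ι) (d : ι → ℕ)
    {b : κ → ℕ} (a : (i : ι) → Sym σ (d i) → E) (p : (t : κ) → Sym σ (b t) → E)
    (D : P → Derivation ℤ E E) (θ : τ → P → E) (Z Y : Finset ι) (x : σ → E)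
    (M : σ → σ → E) : Prop :=
  ∀ (O : ValuationSubring E) (Δ : E), Bdd D Δ O → (∀ j s, Δ * θ j s ∈ O) →
      (∀ i ∉ Z, RowBdd D Δ O x (form (a i)) 1 0) → Nul bl p Y O Δ x →
      ∀ j l, Δ ^ (2 * (Fintype.card σ + Fintype.card ι + Fintype.card τ)) * M j l ∈ O

/-- change of the field by a ring homomorphism compatible with the derivations -/
theorem MovB.map [Fintype σ] [DecidableEq σ] [Fintype κ] [DecidableEq ι] {E' : Type*} [Field E']
    {bl : κ → ι} {d : ι → ℕ} {b q : κ → ℕ}
    {a : (i : ι) → Sym σ (d i) → E} {p : (t : κ) → Sym σ (b t) → E}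
    {h : (t : κ) → Sym σ (q t) → E} {D : P → Derivation ℤ E E} (H : MovB bl d b q a p h D)
    (f : E →+* E') (D' : P → Derivation ℤ E' E') (hD : ∀ s x, D' s (f x) = f (D s x)) :
    MovB bl d b q (fun i J => f (a i J)) (fun i J => f (p i J)) (fun i J => f (h i J)) D' where
  deg := H.deg
  der := fun s i J => by
    rw [hD, H.der s i J, map_sum]
    refine Finset.sum_congr rfl fun t _ => ?_
    by_cases ht : bl t = i
    · rw [if_pos ht, if_pos ht, map_sum]
      refine Finset.sum_congr rfl fun J' _ => ?_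
      rw [map_sum]
      refine Finset.sum_congr rfl fun J'' _ => ?_
      split_ifs
      · rw [map_mul, hD]
      · exact map_zero _
    · rw [if_neg ht, if_neg ht, map_zero]

/-- the identity for the values -/
theorem MovB.mov [Fintype σ] [DecidableEq σ] [Fintype κ] [DecidableEq ι]
    {bl : κ → ι} {d : ι → ℕ} {b q : κ → ℕ}
    {a : (i : ι) → Sym σ (d i) → E} {p : (t : κ) → Sym σ (b t) → E}
    {h : (t : κ) → Sym σ (q t) → E} {D : P → Derivation ℤ E E} (H : MovB bl d b q a p h D) :
    Mov bl d b q a p h D where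
  deg := H.deg
  der := fun s i x => by
    have h1 : ∀ J, D s (a i J) * mon x J = ∑ t, (if bl t = i then ∑ J' : Sym σ (b t),
        ∑ J'' : Sym σ (q t), (if (J' : Multiset σ) + (J'' : Multiset σ) = (J : Multiset σ)
          then p t J' * D s (h t J'') else 0) else 0) * mon x J := fun J => by
      rw [H.der s i J, Finset.sum_mul]
    rw [Finset.sum_congr rfl fun J _ => h1 J, Finset.sum_comm]
    refine Finset.sum_congr rfl fun t _ => ?_
    by_cases ht : bl t = i
    · simp only [if_pos ht]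
      have h2 := Helper8.LV.kf_conv (by rw [← ht]; exact H.deg t : d i = b t + q t) (p t)
        (fun J => D s (h t J)) x
      unfold form
      rw [h2]
    · simp only [if_neg ht, zero_mul, Finset.sum_const_zero]

theorem FamB.map {k : Type*} [Field k] [Algebra k E] [Fintype σ] [DecidableEq σ] [Fintype κ]
    [DecidableEq ι] {E' : Type*} [Field E'] [Algebra E E'] [Algebra k E'] [IsScalarTower k E E']
    {bl : κ → ι} {d : ι → ℕ} {b q : κ → ℕ}
    {a : (i : ι) → Sym σ (d i) → E} {p : (t : κ) → Sym σ (b t) → E}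
    {h : (t : κ) → Sym σ (q t) → E} (H : FamB k bl d b q a p h) :
    FamB k bl d b q (fun i J => algebraMap E E' (a i J)) (fun i J => algebraMap E E' (p i J))
      fun i J => algebraMap E E' (h i J) := by
  obtain ⟨Q, hQ⟩ := H
  exact ⟨Q, Pool.Agent.Helper8.CO.fam_map hQ (IsScalarTower.toAlgHom k E E')⟩

theorem FamB.mov {k : Type*} [Field k] [Algebra k E] [Fintype σ] [DecidableEq σ] [Fintype κ]
    [DecidableEq ι] {bl : κ → ι} {d : ι → ℕ} {b q : κ → ℕ}
    {a : (i : ι) → Sym σ (d i) → E} {p : (t : κ) → Sym σ (b t) → E}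
    {h : (t : κ) → Sym σ (q t) → E} (H : FamB k bl d b q a p h)
    (D : P → Derivation ℤ E E) (hD : ∀ s (c : k), D s (algebraMap k E c) = 0) :
    MovB bl d b q a p h D := by
  obtain ⟨Q, hQ⟩ := H
  refine ⟨hQ.deg, fun s i J => ?_⟩
  classical
  rw [← hQ.eq i J, Pool.Agent.Helper8.CO.der_aeval (D s) (hD s), Fintype.sum_sigma]
  refine Finset.sum_congr rfl fun t _ => ?_
  split_ifs with ht
  · rw [Finset.sum_comm]
    refine Finset.sum_congr rfl fun J'' _ => ?_
    rw [hQ.der i J ⟨t, J''⟩, if_pos ht, Finset.sum_mul]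
    refine Finset.sum_congr rfl fun J' _ => ?_
    rw [ite_mul, zero_mul]
  · refine Finset.sum_eq_zero fun J'' _ => ?_
    rw [hQ.der i J ⟨t, J''⟩, if_neg ht, zero_mul]

theorem FamB.tower {k₀ k : Type*} [Field k₀] [Field k] [Algebra k₀ E] [Algebra k E]
    [Algebra k₀ k] [IsScalarTower k₀ k E] [Fintype σ] [DecidableEq σ] [Fintype κ]
    [DecidableEq ι] {bl : κ → ι} {d : ι → ℕ} {b q : κ → ℕ}
    {a : (i : ι) → Sym σ (d i) → E} {p : (t : κ) → Sym σ (b t) → E}
    {h : (t : κ) → Sym σ (q t) → E} (H : FamB k₀ bl d b q a p h) :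
    FamB k bl d b q a p h := by
  obtain ⟨Q, hQ⟩ := H
  exact ⟨_, Pool.Agent.Helper8.CO.fam_tower hQ⟩

end

end Pool.Agent.Helper10.CT
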