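import Pool.Agent.Helper10.CT.InfLine
import Pool.Agent.Helper10.CT.NoTwo
import Pool.Agent.Helper10.LB.FieldArith
import Pool.Agent.Helper8.LV.Final

/-! # CT: finiteness of the integral points over arithmetic rings, over fields -/

set_option autoImplicit false

namespace Pool.Agent.Helper10.CT

open scoped BigOperators
open Polynomial Pool.Agent.Helper8.LG Pool.Agent.Helper10.LB
open Pool.Agent.Helper6.CO (Fam Mov Nul qm)
open Pool.Agent.Helper8.CO (NulP)

/-- **Finiteness of integral points over finitely generated rings**, normalised coordinates. -/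
theorem field_arith {k₀ L : Type*} [Field k₀] [Field L] [CharZero L] [Algebra k₀ L]
    (hfg : (⊤ : IntermediateField k₀ L).FG)
    {σ ι κ : Type*} [Fintype σ] [DecidableEq σ] [Fintype ι] [DecidableEq ι] [Fintype κ]
    [DecidableEq κ] (bl : κ → ι) (d q₀ : ι → ℕ) (b q : κ → ℕ)
    (hq : ∀ t, 0 < q t) (hq₀ : ∀ t, q₀ (bl t) ≤ q t) (a : (i : ι) → Sym σ (d i) → L)
    (ap : (t : κ) → Sym σ (b t) → L) (ah : (t : κ) → Sym σ (q t) → L)
    (hF : FamB k₀ bl d b q a ap ah) (c : ℕ)
    (hc : (Fintype.card (Ix σ q) : Cardinal) ≤ Algebra.trdeg k₀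
      (IntermediateField.adjoin k₀ (Set.range fun p : Ix σ q => ah p.1 p.2)) + c)
    (Z Y : Finset ι) (hN : NulP bl ap Y) (i₀ : σ)
    (hw1 : 2 * Fintype.card σ + c ≤ ∑ i, qm Y d q₀ i + Z.card + 1)
    (hw2 : Fintype.card σ + 1 ≤ ∑ i, qn Y d q₀ i)
    (A : Subalgebra ℤ L) (hA : A.FG) :
    {x : σ → L | x i₀ = 1 ∧ (∀ i, ∃ t, bl t = i ∧ form (ap t) x ≠ 0) ∧ (∀ i ∈ Z, form (a i) x = 0) ∧
      ∀ i ∉ Z, form (a i) x ≠ 0 ∧ ∀ J : Sym σ (d i), mon x J / form (a i) x ∈ A}.Finite := by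
  classical
  by_contra hinf
  set S : Set (σ → L) := {x : σ → L | x i₀ = 1 ∧ (∀ i, ∃ t, bl t = i ∧ form (ap t) x ≠ 0) ∧
    (∀ i ∈ Z, form (a i) x = 0) ∧
    ∀ i ∉ Z, form (a i) x ≠ 0 ∧ ∀ J : Sym σ (d i), mon x J / form (a i) x ∈ A} with hS
  have hinf' : S.Infinite := hinf
  by_cases hj : ∃ j₁ : σ, j₁ ≠ i₀
  swap
  · push Not at hj
    refine hinf ((Set.finite_singleton (fun _ : σ => (1 : L))).subset fun x hx => ?_)
    rw [Set.mem_singleton_iff]
    funext l
    rw [hj l]
    exact hx.1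
  obtain ⟨j₁, hj₁⟩ := hj
  obtain ⟨T, k, hT, hind, hfin, D, θ, hD, hDk⟩ := reduce hfg q ah c hc
  have hnum : 2 * Fintype.card σ + Fintype.card {s : Ix σ q // s ∉ T} ≤
      ∑ i, qm Y d q₀ i + Z.card + 1 := by omega
  have hM : MovB bl d b q a ap ah D := (hF.tower (k := k)).mov D hDk
  obtain ⟨α, β, p, p', hαβ, hpα, hpβ, hqα, hqβ, hline⟩ := inf_line bl d q₀ b q hq hq₀ a ap ah
    (hF.tower (k := k)) T hind hfin D
    (fun j : {s : Ix σ q // s ∉ T} => j.1) θ hD (fun j => j.2) hDk Z Y hN i₀ j₁ hj₁ hnum hw2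
    (Algebra.adjoin k (A : Set L)) (fa_adjoin_fg A hA) S hinf' (fun x hx =>
      ⟨hx.1, ⟨hx.2.2.1, fun i hi => (hx.2.2.2 i hi).1, fun i hi J =>
        isIntegral_algebraMap (R := (Algebra.adjoin k (A : Set L)).toSubring)
          (x := ⟨_, Algebra.subset_adjoin ((hx.2.2.2 i hi).2 J)⟩)⟩, hx.2.1⟩)
  set S' : Set (σ → L) := {x ∈ S | ∀ l, x l = x α * p l + x β * p' l} with hS'
  -- a good second point
  obtain ⟨x₁, hx₁⟩ := hline.nonempty
  have hne : ∀ i ∉ Z, lf (a i) p' p ≠ 0 := by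
    intro i hi h0
    apply (hx₁.1.2.2.2 i hi).1
    have h1 := fa_line_zero (a i) p p' h0 (x₁ α) (x₁ β)
    have h2 : x₁ = fun l => x₁ α * p l + x₁ β * p' l := funext hx₁.2
    rw [h2]
    exact h1
  have hprod : (∏ i ∈ Zᶜ, lf (a i) p' p) ≠ 0 := by
    rw [Finset.prod_ne_zero_iff]
    intro i hi
    exact hne i (Finset.mem_compl.1 hi)
  obtain ⟨n, hn⟩ : ∃ n : L, (∏ i ∈ Zᶜ, lf (a i) p' p).eval n ≠ 0 := by
    by_contra hall
    push Not at hall
    exact hprod (Polynomial.funext fun r => by rw [hall r, eval_zero])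
  rw [eval_prod, Finset.prod_ne_zero_iff] at hn
  set v : σ → L := fun l => p' l + n * p l with hv
  have hU : ∀ i ∉ Z, form (a i) v ≠ 0 := by
    intro i hi
    have h1 := hn i (Finset.mem_compl.2 hi)
    rw [lf_eval] at h1
    exact h1
  have hpi : p α * v β - p β * v α ≠ 0 := by
    simp only [hv]
    rw [hpα, hpβ, hqα, hqβ]
    norm_num
  have hst : ∀ x ∈ S', ∀ l, x l = (x α - n * x β) * p l + x β * v l := by
    intro x hx l
    have h1 := hx.2 l
    show x l = (x α - n * x β) * p l + x β * (p' l + n * p l)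
    linear_combination h1
  -- the points off `v`
  set S'' : Set (σ → L) := {x ∈ S' | x α - n * x β ≠ 0} with hS''
  have hinf2 : S''.Infinite := by
    intro hfin2
    have hsub : {x ∈ S' | x α - n * x β = 0}.Subsingleton := by
      intro x hx y hy
      have ex : ∀ l, x l = x β * v l := by
        intro l
        have h1 := hst x hx.1 l
        rw [hx.2] at h1
        linear_combination h1
      have ey : ∀ l, y l = y β * v l := by
        intro l
        have h1 := hst y hy.1 l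
        rw [hy.2] at h1
        linear_combination h1
      have hx1 : x i₀ = 1 := hx.1.1.1
      have hy1 : y i₀ = 1 := hy.1.1.1
      have hxi := ex i₀
      have hyi := ey i₀
      rw [hx1] at hxi
      rw [hy1] at hyi
      have hv0 : v i₀ ≠ 0 := by
        intro h0
        rw [h0, mul_zero] at hxi
        exact one_ne_zero hxi
      have hb : x β = y β := mul_right_cancel₀ hv0 (by rw [← hxi, ← hyi])
      funext l
      rw [ex l, ey l, hb]
    refine hline ((hfin2.union hsub.finite).subset fun x hx => ?_)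
    by_cases h0 : x α - n * x β = 0
    · exact Or.inr ⟨hx, h0⟩
    · exact Or.inl ⟨hx, h0⟩
  have hz0 : ∀ x ∈ S'', ∀ l, x l =
      (x α - n * x β) * (p l + x β / (x α - n * x β) * v l) := by
    intro x hx l
    have h1 := hst x hx.1 l
    have h2 : (x α - n * x β) * (x β / (x α - n * x β)) = x β := mul_div_cancel₀ _ hx.2
    linear_combination h1 - v l * h2
  have hinj : Set.InjOn (fun x : σ → L => x β / (x α - n * x β)) S'' := by
    intro x hx y hy hxy
    have hxy' : x β / (x α - n * x β) = y β / (y α - n * y β) := hxy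
    have hx1 : x i₀ = 1 := hx.1.1.1
    have hy1 : y i₀ = 1 := hy.1.1.1
    have ex := hz0 x hx i₀
    have ey := hz0 y hy i₀
    rw [hx1] at ex
    rw [hy1, ← hxy'] at ey
    have hv0 : p i₀ + x β / (x α - n * x β) * v i₀ ≠ 0 := by
      intro h0
      rw [h0, mul_zero] at ex
      exact one_ne_zero ex
    have hb : x α - n * x β = y α - n * y β :=
      mul_right_cancel₀ hv0 (by rw [← ex, ← ey])
    funext l
    rw [hz0 x hx l, hz0 y hy l, ← hxy', hb]
  have hZ : ∀ i ∈ Z, lf (a i) p v = 0 := by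
    intro i hi
    refine Polynomial.eq_zero_of_infinite_isRoot _ ((hinf2.image hinj).mono ?_)
    rintro _ ⟨x, hx, rfl⟩
    show (lf (a i) p v).eval _ = 0
    have h1 : form (a i) x = 0 := hx.1.1.2.2.1 i hi
    have h2 : x = fun l => (x α - n * x β) * (p l + x β / (x α - n * x β) * v l) :=
      funext (hz0 x hx)
    rw [h2, fa_form_mul, mul_eq_zero, or_iff_right (pow_ne_zero _ hx.2)] at h1
    rw [lf_eval]
    exact h1
  have hPl : ∀ i, ∃ t, bl t = i ∧ lf (ap t) p v ≠ 0 := by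
    intro i
    obtain ⟨x, hx⟩ := hinf2.nonempty
    obtain ⟨t, ht, htx⟩ := hx.1.1.2.1 i
    refine ⟨t, ht, fun h0 => htx ?_⟩
    have h2 : x = fun l => (x α - n * x β) * (p l + x β / (x α - n * x β) * v l) :=
      funext (hz0 x hx)
    rw [h2, fa_form_mul, ← lf_eval, h0, eval_zero, mul_zero]
  have hfinal := line_arith a Z A hA p v α β hpi hU (fun h h0 hdvd =>
    three_roots bl d q₀ b q hq₀ a ap ah D (fun j : {s : Ix σ q // s ∉ T} => j.1) θ hD hM Z Y hN
      hnum p v α β hpi hPl hZ hU h h0 hdvd) i₀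
  exact hline (hfinal.subset fun x hx =>
    ⟨hx.1.1, hx.1.2.2.2, x α - n * x β, x β, hst x hx⟩)

end Pool.Agent.Helper10.CT
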