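import Pool.Agent.Helper6.CO.Key
import Pool.Agent.Helper6.CT.Minor
import Pool.Agent.Helper49.LG.KeyTwoB
import Pool.Agent.Helper10.CT.Defs

/-! # CT: the key lemma for two-vectors -/

set_option autoImplicit false

namespace Pool.Agent.Helper10.CT

open scoped BigOperators
open Pool.Agent.Helper8.LG hiding eul cv syz phi exists_functional
open Pool.Agent.Helper6.CO (Fam Mov Nul qm)

section

open Pool.Agent.Helper6.CO (eul cv syz phi colR exists_flag exists_functional flag_one li_sum
  left_rows_le mon_rep)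
open Pool.Agent.Helper6.CT (colO colU colU_span colU_zero nx u_minor)

/-- counting the columns -/
private theorem count_q {κ ι : Type*} [Fintype ι] [DecidableEq ι] (S : Set κ) [Fintype S]
    (bl : κ → ι) (d q₀ : ι → ℕ) (q : κ → ℕ) (hq : ∀ t, q₀ (bl t) ≤ q t) (Y : Finset ι)
    (hS : ∀ i, ∃ t ∈ S, bl t = i) (sp : ι → Prop) [DecidablePred sp]
    (hsp : ∀ i, sp i ↔ i ∈ Y ∧ ∀ s ∈ S, ∀ t ∈ S, bl s = i → bl t = i → s = t) :
    ∑ i, qm Y d q₀ i + Fintype.card ι ≤
        ∑ t : S, (if sp (bl t) then d (bl t) else q t) + Fintype.card S ∧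
      ∑ i, qn Y d q₀ i ≤ ∑ t : S, (if sp (bl t) then d (bl t) else q t) := by
  classical
  have h1 : ∑ i, qm Y d q₀ i + Fintype.card ι = ∑ i, (qm Y d q₀ i + 1) := by
    rw [Finset.sum_add_distrib]
    simp
  have h2 : ∑ t : S, (if sp (bl t) then d (bl t) else q t) + Fintype.card S =
      ∑ t : S, ((if sp (bl t) then d (bl t) else q t) + 1) := by
    rw [Finset.sum_add_distrib]
    simp
  have main : ∀ (e : ℕ), ∀ i, (if i ∈ Y then min (d i) (2 * q₀ i + e) else q₀ i) + e ≤
      ∑ t ∈ Finset.univ.filter (fun t : S => bl t = i),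
        ((if sp (bl t) then d (bl t) else q t) + e) := by
    intro e i
    obtain ⟨t, ht, hti⟩ := hS i
    have htm : (⟨t, ht⟩ : S) ∈ Finset.univ.filter fun t : S => bl t = i :=
      Finset.mem_filter.2 ⟨Finset.mem_univ _, hti⟩
    by_cases hi : sp i
    · have h3 := Finset.single_le_sum
        (f := fun t : S => (if sp (bl t) then d (bl t) else q t) + e)
        (fun _ _ => Nat.zero_le _) htm
      refine le_trans ?_ h3
      simp only [hti, if_pos hi]
      rw [if_pos ((hsp i).1 hi).1]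
      exact Nat.add_le_add_right (min_le_left _ _) e
    · by_cases hY : i ∈ Y
      · have h4 : ¬ ∀ s ∈ S, ∀ t ∈ S, bl s = i → bl t = i → s = t :=
          fun h => hi ((hsp i).2 ⟨hY, h⟩)
        push Not at h4
        obtain ⟨s, hs, t', ht', hsi, hti', hst⟩ := h4
        have h5 : ({⟨s, hs⟩, ⟨t', ht'⟩} : Finset S) ⊆
            Finset.univ.filter fun t : S => bl t = i := by
          intro y hy
          rw [Finset.mem_insert, Finset.mem_singleton] at hy
          rcases hy with rfl | rfl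
          · exact Finset.mem_filter.2 ⟨Finset.mem_univ _, hsi⟩
          · exact Finset.mem_filter.2 ⟨Finset.mem_univ _, hti'⟩
        have h6 := Finset.sum_le_sum_of_subset (f := fun t : S =>
          (if sp (bl t) then d (bl t) else q t) + e) h5
        refine le_trans ?_ h6
        rw [Finset.sum_pair (fun h => hst (congrArg Subtype.val h))]
        simp only [hsi, hti', if_neg hi]
        rw [if_pos hY]
        have h7 := hq s
        have h8 := hq t'
        rw [hsi] at h7
        rw [hti'] at h8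
        have h9 := min_le_right (d i) (2 * q₀ i + e)
        omega
      · have h3 := Finset.single_le_sum
          (f := fun t : S => (if sp (bl t) then d (bl t) else q t) + e)
          (fun _ _ => Nat.zero_le _) htm
        refine le_trans ?_ h3
        simp only [hti, if_neg hi]
        rw [if_neg hY]
        have h7 := hq t
        rw [hti] at h7
        omega
  refine ⟨?_, ?_⟩
  · rw [h1, h2, ← Finset.sum_fiberwise_of_maps_to (s := Finset.univ (α := S))
      (t := Finset.univ (α := ι)) (g := fun t : S => bl t) (fun _ _ => Finset.mem_univ _)]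
    exact Finset.sum_le_sum fun i _ => main 1 i
  · rw [← Finset.sum_fiberwise_of_maps_to (s := Finset.univ (α := S))
      (t := Finset.univ (α := ι)) (g := fun t : S => bl t) (fun _ _ => Finset.mem_univ _)]
    exact Finset.sum_le_sum fun i _ => main 0 i

private theorem key_aux {E : Type*} [Field E] {σ ι κ Tt : Type*} [Fintype σ] [DecidableEq σ]
    [Fintype ι] [DecidableEq ι] [Fintype κ] [DecidableEq κ] [Fintype Tt] (bl : κ → ι)
    (d q₀ : ι → ℕ) (bb n : κ → ℕ) (hq₀ : ∀ t, q₀ (bl t) ≤ n t + 1)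
    (a : (i : ι) → Sym σ (d i) → E) (p : (t : κ) → Sym σ (bb t) → E)
    (h : (t : κ) → Sym σ (n t + 1) → E) (D : Ix σ (fun t => n t + 1) → Derivation ℤ E E)
    (jj : Tt → Ix σ (fun t => n t + 1)) (θ : Tt → Ix σ (fun t => n t + 1) → E)
    (hD : Dual (fun t => n t + 1) h D jj θ)
    (hM : Mov bl d bb (fun t => n t + 1) a p h D)
    (Z Y : Finset ι) (x : σ → E) (i₀ j₁ : σ) (hx : x i₀ = 1) (hj : j₁ ≠ i₀)
    (hZ : ∀ i ∈ Z, form (a i) x = 0) (hU : ∀ i ∉ Z, form (a i) x ≠ 0)
    (hP : ∀ i, ∃ t, bl t = i ∧ form (p t) x ≠ 0) (w : ℕ)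
    (hw1 : 2 * w + 1 + Fintype.card Tt ≤ ∑ i, qm Y d q₀ i + Z.card)
    (hw2 : w + 2 ≤ ∑ i, qn Y d q₀ i) (hm : MinorsVanish D x w) :
    ∃ δ : σ → E, (∃ j l, x j * δ l - x l * δ j ≠ 0) ∧
      KeyB bl d a p D θ Z Y x fun j l => x j * δ l - x l * δ j := by
  classical
  have heul : (eul d Z x : (σ ⊕ ι) ⊕ Tt → E) ≠ 0 := by
    intro h
    have h1 := congrFun h (Sum.inl (Sum.inl i₀))
    simp only [eul, Sum.elim_inl, Pi.zero_apply, hx] at h1
    exact one_ne_zero h1
  obtain ⟨b, hb0, hbli, hbsp⟩ := Helper74.LG.exists_basis_part (E := E) (eul d Z x) heul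
    (syz n a D θ Z x)
  let K := {s : Σ t : κ, Sym σ (n t) × σ × σ // some s ∈ b}
  have hKfin : Fintype K := Fintype.ofFinite K
  let f₀ : K → Σ t : κ, Sym σ (n t) × σ × σ := Subtype.val
  let emb : Option K → b := fun o => o.elim ⟨none, hb0⟩ fun k => ⟨some k.1, k.2⟩
  have hemb : Function.Injective emb := by
    intro o o' h
    rcases o with _ | k <;> rcases o' with _ | k'
    · rfl
    · exact absurd (congrArg Subtype.val h) (by simp [emb])
    · exact absurd (congrArg Subtype.val h) (by simp [emb])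
    · have h1 := congrArg Subtype.val h
      have h2 : k.1 = k'.1 := Option.some_injective _ h1
      rw [Subtype.ext h2]
  have hfli : LinearIndependent E (colO n a D θ Z f₀ x) := by
    have h1 := hbli.comp emb hemb
    have h2 : (fun o : b => (o : Option _).elim (eul d Z x) (syz n a D θ Z x)) ∘ emb =
        colO n a D θ Z f₀ x := by
      funext o
      rcases o with _ | k <;> rfl
    rwa [h2] at h1
  have hfsp : ∀ s, syz n a D θ Z x s ∈
      Submodule.span E (Set.range (colO n a D θ Z f₀ x)) := by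
    intro s
    refine Submodule.span_mono ?_ (hbsp s)
    rintro _ ⟨⟨o, ho⟩, rfl⟩
    rcases o with _ | s'
    · exact ⟨none, rfl⟩
    · exact ⟨some ⟨s', ho⟩, rfl⟩
  set V₀ : Submodule E ((σ ⊕ ι) ⊕ Tt → E) :=
    Submodule.span E (Set.range (colO n a D θ Z f₀ x)) with hV₀
  obtain ⟨r, S, hF1, hF2, hF3, -⟩ := exists_flag (E := E) bl V₀ (colR n a D θ Z x i₀)
  have : Fintype S := Fintype.ofFinite S
  -- the functionals
  obtain ⟨lam, hl1, hl2, hl3⟩ := exists_functional bl n a p h D jj θ hD hM Z x hZ hU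
  have hV : ∀ v ∈ V₀, lam v = 0 := by
    have h2 : V₀ ≤ LinearMap.ker lam := by
      rw [hV₀, Submodule.span_le]
      rintro _ ⟨o, rfl⟩
      rcases o with _ | s
      · exact hl1
      · exact hl3 _
    exact fun v hv => h2 hv
  have hC : ∀ t, lam (colR n a D θ Z x i₀ t) = Pi.single (bl t) (-(form (p t) x)) := by
    intro t
    rw [colR, hl2, mon_rep, hx, one_pow, mul_one]
  -- every block has a column
  have hlow : ∀ i v, v ∈ V₀ ⊔ Submodule.span E
      (colR n a D θ Z x i₀ '' {s | s ∈ S ∧ bl s ≠ i}) → lam v i = 0 := by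
    intro i v hv
    have h3 : V₀ ⊔ Submodule.span E (colR n a D θ Z x i₀ '' {s | s ∈ S ∧ bl s ≠ i}) ≤
        LinearMap.ker ((LinearMap.proj i : (ι → E) →ₗ[E] E).comp lam) := by
      refine sup_le ?_ ?_
      · intro v hv
        rw [LinearMap.mem_ker, LinearMap.comp_apply, hV v hv]
        rfl
      · rw [Submodule.span_le]
        rintro _ ⟨s, ⟨_, hs⟩, rfl⟩
        rw [SetLike.mem_coe, LinearMap.mem_ker, LinearMap.comp_apply, LinearMap.proj_apply, hC,
          Pi.single_eq_of_ne hs.symm]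
    exact h3 hv
  have hSne : ∀ i, ∃ t ∈ S, bl t = i := by
    intro i
    by_contra hcon
    push Not at hcon
    obtain ⟨t, hti, htp⟩ := hP i
    have h1 : V₀ ⊔ Submodule.span E (colR n a D θ Z x i₀ '' {s | s ∈ S ∧ r s ≤ r t}) ≤
        V₀ ⊔ Submodule.span E (colR n a D θ Z x i₀ '' {s | s ∈ S ∧ bl s ≠ i}) :=
      sup_le_sup_left (Submodule.span_mono (Set.image_mono fun s hs =>
        (⟨hs.1, hcon s hs.1⟩ : s ∈ S ∧ bl s ≠ i))) V₀
    have h2 := hlow i _ (h1 (hF2 t))
    rw [hC, hti, Pi.single_eq_same, neg_eq_zero] at h2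
    exact htp h2
  -- the special blocks
  let sp : ι → Prop := fun i => i ∈ Y ∧ ∀ s ∈ S, ∀ t ∈ S, bl s = i → bl t = i → s = t
  have hone : ∀ t ∈ S, sp (bl t) → ∀ s ∈ S, bl s = bl t → s = t :=
    fun t ht hsp s hs hst => hsp.2 s hs t ht hst rfl
  have hne : ∀ t ∈ S, sp (bl t) → form (p t) x ≠ 0 := by
    intro t ht hsp
    obtain ⟨t₁, ht₁, htp⟩ := hP (bl t)
    obtain ⟨cc, v, w, _, _, _, h2⟩ := flag_one bl _ (colR n a D θ Z x i₀) r S hF2 hF3 lam
      (fun t => form (p t) x) hV hC t (fun s hs hst => hone t ht hsp s hs hst) t₁ ht₁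
    intro h0
    apply htp
    rw [h2, h0, mul_zero]
  set g : κ → E := fun t => if sp (bl t) then (form (p t) x)⁻¹ else 1 with hg
  have hg0 : ∀ t ∈ S, g t ≠ 0 := by
    intro t ht
    rw [hg]
    by_cases hsp : sp (bl t)
    · simp only [if_pos hsp]
      exact inv_ne_zero (hne t ht hsp)
    · simp only [if_neg hsp]
      exact one_ne_zero
  have hK : LinearIndependent E (colU n a D θ Z f₀ S x i₀ g id) :=
    li_sum (colO n a D θ Z f₀ x) (colR n a D θ Z x i₀) S g hg0 hfli hF1
  obtain ⟨ρ, hρinj, hρdet⟩ := exists_minor _ hK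
  have hρZ : ∀ s i, ρ s = Sum.inl (Sum.inr i) → i ∉ Z := by
    intro s i hs hi
    apply hρdet
    refine Matrix.det_eq_zero_of_row_eq_zero s fun t => ?_
    rw [Matrix.of_apply, hs]
    exact colU_zero f₀ S i₀ g id t hi
  -- counting
  set isx : (σ ⊕ ι) ⊕ Tt → Bool :=
    Sum.elim (Sum.elim (fun _ => true) (fun _ => false)) (fun _ => false) with hisx
  set lft : Finset (Option K ⊕ S) := Finset.univ.filter fun s => isx (ρ s) = true with hlft
  set rgt : Finset (Option K ⊕ S) := Finset.univ.filter fun s => ¬ isx (ρ s) = true with hrgt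
  have hnx : nx ρ = lft.card := rfl
  have hn' : lft.card ≤ w + 1 := by
    refine left_rows_le (col D x) w hm
      (fun t l => colU n a D θ Z f₀ S x i₀ g id t (Sum.inl (Sum.inl l)))
      (colU_span f₀ S i₀ g id) _ hρdet lft
      (fun s => Sum.elim (Sum.elim id (fun _ => i₀)) (fun _ => i₀) (ρ s)) ?_
    intro s hs t
    rw [hlft, Finset.mem_filter] at hs
    rcases h : ρ s with (l | i) | j
    · simp [h]
    · rw [h] at hs
      simp [hisx] at hs
    · rw [h] at hs
      simp [hisx] at hs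
  have hq' : rgt.card + Z.card ≤ Fintype.card ι + Fintype.card Tt := by
    have h1 : rgt.image ρ ⊆ ((Finset.univ \ Z).map ⟨fun i => Sum.inl (Sum.inr i),
          Sum.inl_injective.comp Sum.inr_injective⟩) ∪
        (Finset.univ : Finset Tt).map ⟨Sum.inr, Sum.inr_injective⟩ := by
      intro y hy
      rw [Finset.mem_image] at hy
      obtain ⟨s, hs, rfl⟩ := hy
      rw [hrgt, Finset.mem_filter] at hs
      rw [Finset.mem_union]
      rcases h : ρ s with (l | i) | j
      · rw [h] at hs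
        simp [hisx] at hs
      · left
        rw [Finset.mem_map]
        exact ⟨i, Finset.mem_sdiff.2 ⟨Finset.mem_univ i, hρZ s i h⟩, rfl⟩
      · right
        rw [Finset.mem_map]
        exact ⟨j, Finset.mem_univ j, rfl⟩
    have h2 := (Finset.card_le_card h1).trans (Finset.card_union_le _ _)
    rw [Finset.card_image_of_injective _ hρinj, Finset.card_map, Finset.card_map,
      Finset.card_sdiff_of_subset (Finset.subset_univ Z), Finset.card_univ,
      Finset.card_univ] at h2
    have h3 : Z.card ≤ Fintype.card ι := Finset.card_le_univ Z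
    omega
  have hcard : Fintype.card K + 1 + Fintype.card S = lft.card + rgt.card := by
    rw [← Fintype.card_option, ← Fintype.card_sum, ← Finset.card_univ (α := Option K ⊕ S)]
    exact (Finset.card_filter_add_card_filter_not _).symm
  obtain ⟨hc1, hc2⟩ := count_q S bl d q₀ (fun t => n t + 1) hq₀ Y hSne sp fun i => Iff.rfl
  set SQ : ℕ := ∑ t : S, (if sp (bl t) then d (bl t) else n t + 1) with hSQ
  obtain ⟨k', hk'⟩ : ∃ k', Fintype.card σ + Fintype.card ι + Fintype.card Tt =
      Fintype.card (Option K ⊕ S) + k' := by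
    apply Nat.exists_eq_add_of_le
    rw [← Fintype.card_sum, ← Fintype.card_sum]
    exact Fintype.card_le_of_injective ρ hρinj
  have hSne' : ∀ i, ∃ t, bl t = i := fun i => by
    obtain ⟨t, _, ht⟩ := hSne i
    exact ⟨t, ht⟩
  by_cases hKne : Nonempty K
  · -- one syzygy is varied
    obtain ⟨k₁⟩ := hKne
    set t₁ : κ := (f₀ k₁).1 with ht₁
    set I₁ : Sym σ (n t₁) := (f₀ k₁).2.1 with hI₁
    set M := Matrix.of fun s t => colU n a D θ Z f₀ S x i₀ g id t (ρ s) with hMdef
    set c₁ : Option K ⊕ S := Sum.inl (some k₁) with hc₁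
    have hup : ∀ j l, Matrix.det (Matrix.of fun s t =>
        colU n a D θ Z (Function.update f₀ k₁ ⟨t₁, I₁, j, l⟩) S x i₀ g id t (ρ s)) =
        x j * Matrix.det (M.updateCol c₁ fun s => cv n a D θ Z x ⟨t₁, l ::ₛ I₁⟩ (ρ s)) -
          x l * Matrix.det (M.updateCol c₁ fun s => cv n a D θ Z x ⟨t₁, j ::ₛ I₁⟩ (ρ s)) := by
      intro j l
      have h1 : (Matrix.of fun s t =>
          colU n a D θ Z (Function.update f₀ k₁ ⟨t₁, I₁, j, l⟩) S x i₀ g id t (ρ s)) =
          M.updateCol c₁ ((x j • fun s => cv n a D θ Z x ⟨t₁, l ::ₛ I₁⟩ (ρ s)) +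
            (-x l) • fun s => cv n a D θ Z x ⟨t₁, j ::ₛ I₁⟩ (ρ s)) := by
        ext s t
        rw [Matrix.updateCol_apply]
        by_cases ht : t = c₁
        · rw [if_pos ht, ht]
          have h2 : colU n a D θ Z (Function.update f₀ k₁ ⟨t₁, I₁, j, l⟩) S x i₀ g id c₁ =
              syz n a D θ Z x ⟨t₁, I₁, j, l⟩ := by
            change syz n a D θ Z x (Function.update f₀ k₁ ⟨t₁, I₁, j, l⟩ k₁) = _
            rw [Function.update_self]
          rw [Matrix.of_apply, h2]
          simp only [syz, Pi.sub_apply, Pi.add_apply, Pi.smul_apply, smul_eq_mul]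
          ring
        · rw [if_neg ht, hMdef, Matrix.of_apply, Matrix.of_apply]
          rcases t with (_ | k) | i
          · rfl
          · have h3 : k ≠ k₁ := fun h => ht (by rw [h])
            change syz n a D θ Z x (Function.update f₀ k₁ ⟨t₁, I₁, j, l⟩ k) _ =
              syz n a D θ Z x (f₀ k) _
            rw [Function.update_of_ne h3]
          · rfl
      rw [h1, Matrix.det_updateCol_add, Matrix.det_updateCol_smul, Matrix.det_updateCol_smul]
      ring
    refine ⟨fun l => Matrix.det (M.updateCol c₁ fun s => cv n a D θ Z x ⟨t₁, l ::ₛ I₁⟩ (ρ s)),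
      ⟨(f₀ k₁).2.2.1, (f₀ k₁).2.2.2, ?_⟩, ?_⟩
    · rw [← hup]
      have h1 : (⟨t₁, I₁, (f₀ k₁).2.2.1, (f₀ k₁).2.2.2⟩ :
          Σ t : κ, Sym σ (n t) × σ × σ) = f₀ k₁ := rfl
      rw [h1, Function.update_eq_self]
      exact hρdet
    · intro O Δ hO hθ hrow hnul j l
      simp only
      rw [← hup]
      set f' := Function.update f₀ k₁ ⟨t₁, I₁, j, l⟩ with hf'
      by_cases h0 : Matrix.det (Matrix.of fun s t => colU n a D θ Z f' S x i₀ g id t (ρ s)) = 0
      · rw [h0, mul_zero]
        exact zero_mem O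
      · obtain ⟨j₀, hj₀, hjO⟩ := Helper74.LG.exists_max_coord O x i₀ (by
          rw [hx]
          exact one_ne_zero)
        have hci : (x j₀)⁻¹ ∈ O := by
          have h1 := hjO i₀
          rwa [hx, one_div] at h1
        have hli' : LinearIndependent E (colU n a D θ Z f' S x i₀ g id) :=
          Helper49.LG.li_of_minor _ ρ h0
        have hfli' : LinearIndependent E (colO n a D θ Z f' x) :=
          hli'.comp Sum.inl Sum.inl_injective
        have hle' : ∀ o, colO n a D θ Z f' x o ∈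
            Submodule.span E (Set.range (colO n a D θ Z f₀ x)) := by
          rintro (_ | k)
          · exact Submodule.subset_span ⟨none, rfl⟩
          · exact hfsp _
        have hfsp' : ∀ s, syz n a D θ Z x s ∈
            Submodule.span E (Set.range (colO n a D θ Z f' x)) :=
          Helper49.LG.span_of_li _ _ hfli hfli' hle' (syz n a D θ Z x) hfsp
        have hVeq : Submodule.span E (Set.range (colO n a D θ Z f' x)) = V₀ := by
          refine le_antisymm ?_ ?_
          · rw [Submodule.span_le]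
            rintro _ ⟨o, rfl⟩
            exact hle' o
          · rw [hV₀, Submodule.span_le]
            rintro _ ⟨o, rfl⟩
            rcases o with _ | k
            · exact Submodule.subset_span ⟨none, rfl⟩
            · exact hfsp' _
        obtain ⟨N, hN1, hN2⟩ := u_minor bl p hM.deg f' hfsp' hU i₀ hx r S
          (by rw [hVeq]; exact hF2) hF3 lam (by rw [hVeq]; exact hV) hC hSne' sp
          (fun i hi => hi.1) hone hne ρ hρZ O Δ hO hθ hrow hnul j₀ hj₀ hjO
        obtain ⟨m, hm'⟩ : ∃ m, SQ = nx ρ + Fintype.card K + m :=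
          Nat.exists_eq_add_of_le (by omega)
        rw [← hSQ, hm', pow_add, mul_comm _ N,
          mul_comm (x j₀ ^ (nx ρ + Fintype.card K)) (x j₀ ^ m), ← mul_assoc] at hN2
        have hN3 := mul_right_cancel₀ (pow_ne_zero _ hj₀) hN2
        have h1 : Matrix.det (Matrix.of fun s t => colU n a D θ Z f' S x i₀ g id t (ρ s)) =
            (x j₀)⁻¹ ^ m * N := by
          rw [← hN3, mul_comm, mul_assoc, ← mul_pow, mul_inv_cancel₀ hj₀, one_pow, mul_one]
        rw [h1, hk', pow_mul, pow_add]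
        have h2 : (Δ ^ 2) ^ Fintype.card (Option K ⊕ S) * (Δ ^ 2) ^ k' * ((x j₀)⁻¹ ^ m * N) =
            (Δ ^ 2) ^ k' * (x j₀)⁻¹ ^ m * ((Δ ^ 2) ^ Fintype.card (Option K ⊕ S) * N) := by
          ring
        rw [h2]
        exact mul_mem (mul_mem (pow_mem (pow_mem hO.1 _) _) (pow_mem hci _)) hN1
  · -- no syzygy
    have hK0 : Fintype.card K = 0 := by
      rw [Fintype.card_eq_zero_iff]
      exact not_nonempty_iff.1 hKne
    set G := Matrix.det (Matrix.of fun s t => colU n a D θ Z f₀ S x i₀ g id t (ρ s)) with hG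
    refine ⟨Pi.single j₁ G, ⟨i₀, j₁, ?_⟩, ?_⟩
    · rw [Pi.single_eq_same, Pi.single_eq_of_ne hj.symm, hx, one_mul, mul_zero, sub_zero]
      exact hρdet
    · intro O Δ hO hθ hrow hnul
      obtain ⟨j₀, hj₀, hjO⟩ := Helper74.LG.exists_max_coord O x i₀ (by
        rw [hx]
        exact one_ne_zero)
      have hci : (x j₀)⁻¹ ∈ O := by
        have h1 := hjO i₀
        rwa [hx, one_div] at h1
      obtain ⟨N, hN1, hN2⟩ := u_minor bl p hM.deg f₀ hfsp hU i₀ hx r S hF2 hF3 lam hV hC
        hSne' sp (fun i hi => hi.1) hone hne ρ hρZ O Δ hO hθ hrow hnul j₀ hj₀ hjO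
      obtain ⟨m, hm'⟩ : ∃ m, SQ = nx ρ + Fintype.card K + (1 + m) := by
        obtain ⟨m, hm'⟩ : ∃ m, SQ = nx ρ + Fintype.card K + 1 + m :=
          Nat.exists_eq_add_of_le (by omega)
        exact ⟨m, by omega⟩
      rw [← hSQ, hm', pow_add, mul_comm _ N,
        mul_comm (x j₀ ^ (nx ρ + Fintype.card K)) (x j₀ ^ (1 + m)), ← mul_assoc] at hN2
      have hN3 := mul_right_cancel₀ (pow_ne_zero _ hj₀) hN2
      have h1 : G * x j₀ = (x j₀)⁻¹ ^ m * N := by
        rw [← hN3, pow_add, pow_one]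
        have h2 : (x j₀)⁻¹ ^ m * x j₀ ^ m = 1 := by
          rw [← mul_pow, inv_mul_cancel₀ hj₀, one_pow]
        calc G * x j₀ = G * x j₀ * ((x j₀)⁻¹ ^ m * x j₀ ^ m) := by rw [h2, mul_one]
          _ = _ := by ring
      have hGx : ∀ l, Δ ^ (2 * (Fintype.card σ + Fintype.card ι + Fintype.card Tt)) *
          (G * x l) ∈ O := by
        intro l
        have h2 : G * x l = (x j₀)⁻¹ ^ m * N * (x l / x j₀) := by
          rw [← h1]
          field_simp
        rw [h2, hk', pow_mul, pow_add]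
        have h3 : (Δ ^ 2) ^ Fintype.card (Option K ⊕ S) * (Δ ^ 2) ^ k' *
            ((x j₀)⁻¹ ^ m * N * (x l / x j₀)) =
            (Δ ^ 2) ^ k' * (x j₀)⁻¹ ^ m * (x l / x j₀) *
              ((Δ ^ 2) ^ Fintype.card (Option K ⊕ S) * N) := by ring
        rw [h3]
        exact mul_mem (mul_mem (mul_mem (pow_mem (pow_mem hO.1 _) _) (pow_mem hci _))
          (hjO l)) hN1
      have hGx' : ∀ j l, Δ ^ (2 * (Fintype.card σ + Fintype.card ι + Fintype.card Tt)) *
          (x j * (Pi.single j₁ G : σ → E) l) ∈ O := by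
        intro j l
        by_cases hl : l = j₁
        · rw [hl, Pi.single_eq_same, mul_comm (x j) G]
          exact hGx j
        · rw [Pi.single_eq_of_ne hl, mul_zero, mul_zero]
          exact zero_mem O
      intro j l
      simp only
      rw [mul_sub]
      exact sub_mem (hGx' j l) (hGx' l j)

end

/-- **The key lemma for two-vectors.** -/
theorem key_two {E : Type*} [Field E] {σ ι κ τ : Type*} [Fintype σ] [DecidableEq σ] [Fintype ι]
    [DecidableEq ι] [Fintype κ] [DecidableEq κ] [Fintype τ] (bl : κ → ι) (d q₀ : ι → ℕ)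
    (b q : κ → ℕ) (hq : ∀ t, 0 < q t) (hq₀ : ∀ t, q₀ (bl t) ≤ q t)
    (a : (i : ι) → Sym σ (d i) → E) (p : (t : κ) → Sym σ (b t) → E)
    (h : (t : κ) → Sym σ (q t) → E) (D : Ix σ q → Derivation ℤ E E)
    (jj : τ → Ix σ q) (θ : τ → Ix σ q → E) (hD : Dual q h D jj θ)
    (hM : Mov bl d b q a p h D)
    (Z Y : Finset ι) (x : σ → E) (i₀ j₁ : σ) (hx : x i₀ = 1) (hj : j₁ ≠ i₀)
    (hZ : ∀ i ∈ Z, form (a i) x = 0) (hU : ∀ i ∉ Z, form (a i) x ≠ 0)
    (hP : ∀ i, ∃ t, bl t = i ∧ form (p t) x ≠ 0) (w : ℕ)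
    (hw1 : 2 * w + 1 + Fintype.card τ ≤ ∑ i, qm Y d q₀ i + Z.card)
    (hw2 : w + 2 ≤ ∑ i, qn Y d q₀ i) (hm : MinorsVanish D x w) :
    ∃ δ : σ → E, (∃ j l, x j * δ l - x l * δ j ≠ 0) ∧
      KeyB bl d a p D θ Z Y x fun j l => x j * δ l - x l * δ j := by
  obtain ⟨n, rfl⟩ : ∃ n : κ → ℕ, q = fun t => n t + 1 :=
    ⟨fun t => q t - 1, funext fun t => (Nat.sub_add_cancel (hq t)).symm⟩
  exact key_aux bl d q₀ b n hq₀ a p h D jj θ hD hM Z Y x i₀ j₁ hx hj hZ hU hP w hw1 hw2 hm

end Pool.Agent.Helper10.CT
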